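import Pool.Agent.R425.CC.Init
import Pool.Agent.Y791.BC.SelL

/-!
# Descent to the constants
-/

set_option autoImplicit false
set_option linter.all false

open Polynomial IsDedekindDomain NumberField WeierstrassCurve

namespace Pool.Agent.R425.CC

open Pool.Agent.TH942 Pool.Agent.TH954 Pool.Agent.Y791.BS Pool.Agent.Y791.BF
  Pool.Agent.Y791.BC Pool.Agent.Y791.BC.Desc2T Pool.Agent.H918R3
  Pool.Agent.H918R3.TB1 Pool.Agent.Y65.D2

open scoped Classical

section

variable {K : Type} [Field K] [CharZero K] {M : Type} [Field M] [CharZero M] [IsAlgClosed M]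
  [Algebra (RatFunc K) M] [Algebra K M] [IsScalarTower K (RatFunc K) M]

/-- the embedding of the algebraic closure of the constants -/
noncomputable def j0 (A : SAct (RatFunc K) M) (e : AlgebraicClosure K →ₐ[K] Kb K) :
    AlgebraicClosure K →ₐ[K] M := (A.j.restrictScalars K).comp e

lemma ap_mul (A : SAct (RatFunc K) M) (E0 : WeierstrassCurve K)
    (σ τ : Kb K ≃ₐ[RatFunc K] Kb K) (P : (E0.baseChange M).toAffine.Point) :
    ap A E0 (σ * τ) P = ap A E0 σ (ap A E0 τ P) := by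
  unfold ap
  rw [pm_pm]
  congr 2
  apply AlgHom.ext
  intro x
  change A.s (σ * τ) x = A.s σ (A.s τ x)
  rw [map_mul]
  rfl

lemma ap_j0 (A : SAct (RatFunc K) M) (E0 : WeierstrassCurve K)
    (e : AlgebraicClosure K →ₐ[K] Kb K) {τ : Kb K ≃ₐ[RatFunc K] Kb K}
    {τ0 : AlgebraicClosure K ≃ₐ[K] AlgebraicClosure K} (h : ∀ z, τ (e z) = e (τ0 z))
    (T : AlgPt E0 K) : ap A E0 τ (pm E0 (j0 A e) T) = pm E0 (j0 A e) (act E0 τ0 T) := by
  unfold ap act
  rw [pm_pm, pm_pm]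
  congr 2
  apply AlgHom.ext
  intro x
  change A.s τ (A.j (e x)) = A.j (e (τ0 x))
  rw [A.hj, h]

theorem exists_xi (A : SAct (RatFunc K) M) (e : AlgebraicClosure K →ₐ[K] Kb K)
    {z1 z2 z3 : AlgebraicClosure K} {E : Lvl (RatFunc K)} (hE : Inv e z1 z2 z3 E)
    {E0 : WeierstrassCurve K} {Q P : (E0.baseChange M).toAffine.Point} (hQ : Fx A E0 E Q)
    (hP : ∀ τ, ap A E0 τ P = P) {N : ℕ} (hQP : N • Q = P)
    (htor : ∀ T : (E0.baseChange M).toAffine.Point, N • T = 0 → ∃ T0, pm E0 (j0 A e) T0 = T) :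
    ∃ ξ : (AlgebraicClosure K ≃ₐ[K] AlgebraicClosure K) → AlgPt E0 K, IsCocycle E0 ξ ∧
      (∀ σ, N • ξ σ = 0) ∧
      ∀ (τ : Kb K ≃ₐ[RatFunc K] Kb K) (τ0 : AlgebraicClosure K ≃ₐ[K] AlgebraicClosure K),
        (∀ z, τ (e z) = e (τ0 z)) → pm E0 (j0 A e) (ξ τ0) = ap A E0 τ Q - Q := by
  obtain ⟨Z, hZ⟩ := fix_kappa e hE
  have hcongr : ∀ τ τ' : Kb K ≃ₐ[RatFunc K] Kb K, (∀ z ∈ Z, τ (e z) = τ' (e z)) →
      ap A E0 τ Q = ap A E0 τ' Q := by
    intro τ τ' h
    have h4 : ap A E0 (τ'⁻¹ * τ) Q = Q := by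
      apply hQ
      apply hZ
      intro z hz
      change τ'.symm (τ (e z)) = e z
      rw [h z hz, τ'.symm_apply_apply]
    rw [show τ = τ' * (τ'⁻¹ * τ) by group, ap_mul, h4]
  have hN : ∀ τ : Kb K ≃ₐ[RatFunc K] Kb K, N • (ap A E0 τ Q - Q) = 0 := by
    intro τ
    rw [smul_sub, ← map_nsmul, hQP, hP, sub_self]
  choose Lf hLf using exists_liftT e
  choose ξ hξ using fun τ0 => htor _ (hN (Lf τ0))
  have hgen : ∀ (τ : Kb K ≃ₐ[RatFunc K] Kb K) (τ0 : AlgebraicClosure K ≃ₐ[K] AlgebraicClosure K),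
        (∀ z, τ (e z) = e (τ0 z)) → pm E0 (j0 A e) (ξ τ0) = ap A E0 τ Q - Q := by
    intro τ τ0 h
    rw [hξ, hcongr (Lf τ0) τ (fun z _ => (hLf τ0 z).trans (h z).symm)]
  have hinj := pm_injective (E := E0) (j0 A e)
  refine ⟨ξ, ⟨?_, ?_⟩, ?_, hgen⟩
  · intro σ τ
    apply hinj
    rw [map_add, hgen (Lf σ * Lf τ) (σ * τ) (fun z => by
      change Lf σ (Lf τ (e z)) = e (σ (τ z))
      rw [hLf, hLf]), hξ σ, ← ap_j0 A E0 e (hLf σ), hξ τ, ap_mul, map_sub]
    abel
  · refine ⟨IntermediateField.adjoin K (Z : Set (AlgebraicClosure K)), ?_, fun σ τ hστ => ?_⟩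
    · have := Z.finite_toSet.to_subtype
      exact IntermediateField.finiteDimensional_adjoin
        (fun x _ => (Algebra.IsAlgebraic.isAlgebraic x).isIntegral)
    · apply hinj
      rw [hξ, hξ, hcongr (Lf σ) (Lf τ) (fun z hz => by
        rw [hLf, hLf, hστ z (IntermediateField.subset_adjoin K _ hz)])]
  · intro σ
    apply hinj
    rw [map_nsmul, hξ, hN, map_zero]

section loc

variable {L : Type} [Field L] [CharZero L] [Algebra K L] [Algebra (RatFunc K) L]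
  [IsScalarTower K (RatFunc K) L]

/-- the place as a place over the constants -/
noncomputable def pK (p : Plc (RatFunc K) M (AlgebraicClosure L)) :
    Plc K M (AlgebraicClosure L) where
  W := p.W
  ρ := p.ρ
  loc := p.loc
  comm c := by
    obtain ⟨h, e⟩ := p.comm (algebraMap K (RatFunc K) c)
    have h1 : algebraMap K M c = algebraMap (RatFunc K) M (algebraMap K (RatFunc K) c) :=
      IsScalarTower.algebraMap_apply K (RatFunc K) M c
    have h2 : algebraMap K (AlgebraicClosure L) c =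
        algebraMap (RatFunc K) (AlgebraicClosure L) (algebraMap K (RatFunc K) c) :=
      IsScalarTower.algebraMap_apply K (RatFunc K) (AlgebraicClosure L) c
    refine ⟨by rw [h1]; exact h, ?_⟩
    rw [h2, ← e]
    congr 1
    exact Subtype.ext h1

variable (A : SAct (RatFunc K) M) {p : Plc (RatFunc K) M (AlgebraicClosure L)}
  {a b : K} {red : ((sw a b).baseChange M).toAffine.Point →+ AlgPt (sw a b) L}

lemma red_ap (hp : GeoPlc A p)
    (h1 : ∀ x y h, x ∉ (pK (K := K) p).W → red (.some x y h) = 0)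
    (h2 : ∀ x y h (hx : x ∈ (pK (K := K) p).W), ∃ (hy : y ∈ (pK (K := K) p).W)
      (h' : ((sw a b).baseChange (AlgebraicClosure L)).toAffine.Nonsingular
        ((pK (K := K) p).ρ ⟨x, hx⟩) ((pK (K := K) p).ρ ⟨y, hy⟩)), red (.some x y h) = .some _ _ h')
    {σ : AlgebraicClosure L ≃ₐ[L] AlgebraicClosure L} {τ : Kb K ≃ₐ[RatFunc K] Kb K}
    (hστ : Compat (p.iot A.j) σ τ) (T : ((sw a b).baseChange M).toAffine.Point) :
    red (ap A (sw a b) τ T) = act (sw a b) σ (red T) :=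
  red_act (pl := pK (K := K) p) (a := a) (b := b) (red := red) (map_zero red) h1 h2
    ((((A.s τ : M ≃ₐ[RatFunc K] M) : M →ₐ[RatFunc K] M)).restrictScalars K)
    ((σ : AlgebraicClosure L →ₐ[L] AlgebraicClosure L).restrictScalars K)
    (fun x => hp σ τ hστ x) T

theorem local_triv (hp : GeoPlc A p) (hD : 4 * a ^ 3 + 27 * b ^ 2 ≠ 0)
    (e : AlgebraicClosure K →ₐ[K] Kb K) {Q : ((sw a b).baseChange M).toAffine.Point}
    {ξ : (AlgebraicClosure K ≃ₐ[K] AlgebraicClosure K) → AlgPt (sw a b) K}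
    (hξ : ∀ (τ : Kb K ≃ₐ[RatFunc K] Kb K) (τ0 : AlgebraicClosure K ≃ₐ[K] AlgebraicClosure K),
        (∀ z, τ (e z) = e (τ0 z)) → pm (sw a b) (j0 A e) (ξ τ0) = ap A (sw a b) τ Q - Q) :
    TrivialOver (sw a b) ξ L := by
  have hch : CharZero (AlgebraicClosure L) :=
    charZero_of_injective_algebraMap (algebraMap L (AlgebraicClosure L)).injective
  obtain ⟨red, h1, h2⟩ := exists_redM (pK (K := K) p) hD
  let ι : AlgebraicClosure K →ₐ[K] AlgebraicClosure L := ((p.iot A.j).restrictScalars K).comp e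
  refine ⟨ι, red Q, fun σ τ0 hσ => ?_⟩
  obtain ⟨τ, hτ⟩ := exists_compat (p.iot A.j) σ
  have hc : ∀ z, τ (e z) = e (τ0 z) := by
    intro z
    apply RingHom.injective (p.iot A.j : Kb K →+* AlgebraicClosure L)
    exact (hτ (e z)).trans (hσ z).symm
  have h3 := red_pm (pl := pK (K := K) p) (a := a) (b := b) (red := red) (map_zero red) h1 h2
    (j0 A e) ι (fun z => p.iot_spec A.j (e z)) (ξ τ0)
  rw [← h3, hξ τ τ0 hc, map_sub, red_ap A hp h1 h2 hτ]

end loc

theorem div_fixed {a b : K} (hD : 4 * a ^ 3 + 27 * b ^ 2 ≠ 0) {m : ℕ}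
    (hess : Algebra.EssFiniteType ℚ K)
    (hsel : SelKilledL K 2 a b m) (A : SAct (RatFunc K) M)
    (pl : ∀ i : PlF (RatFunc K), Plc (RatFunc K) M (AlgebraicClosure i.Lv))
    (hpl : ∀ i, GeoPlc A (pl i)) (e : AlgebraicClosure K →ₐ[K] Kb K)
    {z1 z2 z3 : AlgebraicClosure K} {E : Lvl (RatFunc K)} (hE : Inv e z1 z2 z3 E)
    {Q P : ((sw a b).baseChange M).toAffine.Point} (hQ : Fx A (sw a b) E Q)
    (hP : ∀ τ, ap A (sw a b) τ P = P) {n : ℕ} (hQP : (2 ^ n) • Q = P) :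
    ∃ Q', (∀ τ, ap A (sw a b) τ Q' = Q') ∧ (2 ^ n) • Q' = m • P := by
  have hch : CharZero (AlgebraicClosure K) :=
    charZero_of_injective_algebraMap (algebraMap K (AlgebraicClosure K)).injective
  obtain ⟨ξ, hξ, hξN, hξj⟩ := exists_xi A e hE hQ hP hQP
    (fun T hT => torsion_mem hD (j0 A e) (2 ^ n) Nat.one_le_two_pow T hT)
  obtain ⟨T0, hT0, hT⟩ := hsel n ξ hξ hξN (fun i => by
    have hchi : CharZero i.Lv := charZero_compl i.v
    obtain ⟨t, ht, -⟩ := exists_transcendental' i one_pos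
    let inst1 : Algebra (RatFunc K) i.Lv := (embF ht : RatFunc K →+* i.Lv).toAlgebra
    have inst2 : IsScalarTower K (RatFunc K) i.Lv :=
      IsScalarTower.of_algebraMap_eq (fun c => ((embF ht).commutes c).symm)
    exact local_triv A (p := pl (Leg.plT i ht)) (hpl (Leg.plT i ht)) hD e hξj)
  refine ⟨m • Q - pm (sw a b) (j0 A e) T0, fun τ => ?_, ?_⟩
  · obtain ⟨τ0, hτ0⟩ := exists_compat e τ
    have hc : ∀ z, τ (e z) = e (τ0 z) := fun z => (hτ0 z).symm
    have e2 : ap A (sw a b) τ Q = Q + pm (sw a b) (j0 A e) (ξ τ0) := by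
      rw [hξj τ τ0 hc]
      abel
    have e3 : act (sw a b) τ0 T0 = T0 + m • ξ τ0 := by
      rw [hT]
      abel
    rw [map_sub, map_nsmul, ap_j0 A _ e hc, e2, e3, map_add, map_nsmul, nsmul_add]
    abel
  · rw [nsmul_sub, ← map_nsmul, hT0, map_zero, sub_zero, ← hQP, ← mul_nsmul', ← mul_nsmul',
      mul_comm]

end

end Pool.Agent.R425.CC
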