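import Pool.Agent.R425.CC.Half
import Pool.Agent.Y791.BF.Types

/-!
# Polynomials which are the classes of local points at all places
-/

set_option autoImplicit false
set_option linter.all false

open Polynomial IsDedekindDomain NumberField WeierstrassCurve

namespace Pool.Agent.R425.CC

open Pool.Agent.TH942 Pool.Agent.TH954 Pool.Agent.Y791.BS Pool.Agent.Y791.BF
  Pool.Agent.Y791.BC Pool.Agent.Y791.BC.Desc2T Pool.Agent.H918R3
  Pool.Agent.H918R3.TB1 Pool.Agent.Y65.D2 Pool.Agent.Y791.BF.Types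

open scoped Classical

/-- the norm of `x - e₁` is a square for good reduction -/
lemma norm_sq {L : Type} [NormedField L] [IsUltrametricDist L] {e1 e2 e3 x y : L}
    (h1 : ‖e1‖ ≤ 1) (h2 : ‖e2‖ ≤ 1) (h3 : ‖e3‖ ≤ 1) (h12 : ‖e1 - e2‖ = 1) (h13 : ‖e1 - e3‖ = 1)
    (hx : x ≠ e1) (hxy : y ^ 2 = (x - e1) * (x - e2) * (x - e3)) :
    ∃ u : L, u ≠ 0 ∧ ‖x - e1‖ = ‖u‖ ^ 2 := by
  have hx0 : x - e1 ≠ 0 := sub_ne_zero.2 hx
  by_cases hxn : ‖x‖ ≤ 1
  · by_cases hx1 : ‖x - e1‖ < 1
    · have k2 : ‖x - e2‖ = 1 := by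
        have e : x - e2 = (x - e1) + (e1 - e2) := by ring
        rw [e, IsUltrametricDist.norm_add_eq_max_of_norm_ne_norm (by rw [h12]; exact hx1.ne), h12]
        exact max_eq_right hx1.le
      have k3 : ‖x - e3‖ = 1 := by
        have e : x - e3 = (x - e1) + (e1 - e3) := by ring
        rw [e, IsUltrametricDist.norm_add_eq_max_of_norm_ne_norm (by rw [h13]; exact hx1.ne), h13]
        exact max_eq_right hx1.le
      have h := congrArg (fun z : L => ‖z‖) hxy
      simp only [norm_mul, norm_pow, k2, k3, mul_one] at h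
      refine ⟨y, ?_, h.symm⟩
      rintro rfl
      rw [norm_zero, zero_pow two_ne_zero] at h
      exact hx0 (norm_eq_zero.1 h.symm)
    · refine ⟨1, one_ne_zero, ?_⟩
      rw [norm_one, one_pow]
      apply le_antisymm _ (not_lt.1 hx1)
      rw [sub_eq_add_neg]
      refine (IsUltrametricDist.norm_add_le_max _ _).trans (max_le hxn ?_)
      rw [norm_neg]
      exact h1
  · push Not at hxn
    have k : ∀ e : L, ‖e‖ ≤ 1 → ‖x - e‖ = ‖x‖ := by
      intro e he
      rw [sub_eq_add_neg, IsUltrametricDist.norm_add_eq_max_of_norm_ne_norm (by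
        rw [norm_neg]
        exact (he.trans_lt hxn).ne'), norm_neg]
      exact max_eq_left (he.trans hxn.le)
    have hxz : ‖x‖ ≠ 0 := (lt_trans one_pos hxn).ne'
    have hx00 : x ≠ 0 := norm_ne_zero_iff.1 hxz
    have h := congrArg (fun z : L => ‖z‖) hxy
    simp only [norm_mul, norm_pow, k e1 h1, k e2 h2, k e3 h3] at h
    refine ⟨y / x, div_ne_zero ?_ hx00, ?_⟩
    · rintro rfl
      rw [norm_zero, zero_pow two_ne_zero] at h
      exact (mul_ne_zero (mul_ne_zero hxz hxz) hxz) h.symm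
    · rw [k e1 h1, norm_div, div_pow, h]
      field_simp

/-- all the multiplicities are even -/
theorem even_mult (hEmb : S_EmbFG) {K : Type} [Field K] [CharZero K] [Algebra.EssFiniteType ℚ K]
    {e1 e2 e3 : K} (h12 : e1 ≠ e2) (h13 : e1 ≠ e3) (h23 : e2 ≠ e3) {P : K[X]} (hP : P ≠ 0)
    (hloc : ∀ i : PlF (RatFunc K), ∃ (W : WeierstrassCurve i.Lv)
      (_ : crv (i.φ (cc e1)) (i.φ (cc e2)) (i.φ (cc e3)) = W) (T : W.toAffine.Point),
      IsSquare (i.φ (algebraMap K[X] (RatFunc K) P) *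
        dlW (i.φ (cc e1)) (i.φ (cc e2)) (i.φ (cc e3)) T)) (ρ : AlgebraicClosure K) :
    2 ∣ mu P ρ := by
  obtain ⟨fr⟩ := exists_frame (K := K)
  obtain ⟨q, hq, hqc⟩ :=
    (P.map (algebraMap K (AlgebraicClosure K))).exists_eq_pow_rootMultiplicity_mul_and_not_dvd
      ((Polynomial.map_ne_zero_iff (algebraMap K (AlgebraicClosure K)).injective).2 hP) ρ
  rw [dvd_iff_isRoot] at hqc
  have hqe : q.eval ρ ≠ 0 := hqc
  set Z : Finset (AlgebraicClosure K) := {ρ, algebraMap K _ e1, algebraMap K _ e2,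
    algebraMap K _ e3, algebraMap K _ (e1 - e2), algebraMap K _ (e1 - e3), q.eval ρ} ∪
    (Finset.range (q.natDegree + 1)).image q.coeff with hZdef
  have hρZ : ρ ∈ Z := by simp [hZdef]
  have hcZ : ∀ n, q.coeff n = 0 ∨ q.coeff n ∈ Z := by
    intro n
    by_cases hn : n < q.natDegree + 1
    · right
      simp only [hZdef, Finset.mem_union, Finset.mem_image]
      exact Or.inr ⟨n, Finset.mem_range.2 hn, rfl⟩
    · left
      exact coeff_eq_zero_of_natDegree_lt (by omega)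
  obtain ⟨i, ι, ρv, ε, hZι, hρv, hX, hε0, hε1, hεn⟩ := exists_near hEmb fr Z ρ hρZ
  have inst2 : IsUltrametricDist i.Lv := ultra i.v
  have inst4 : CharZero i.Lv := charZero_compl i.v
  have hle : ∀ z ∈ Z, ∃ y : i.Lv,
      algebraMap i.Lv (AlgebraicClosure i.Lv) y = ι (fr.e z) ∧ ‖y‖ ≤ 1 := by
    intro z hz
    obtain ⟨y, hy, hy1⟩ := hZι z hz
    refine ⟨y, hy, ?_⟩
    by_cases hz0 : z = 0
    · subst hz0
      rw [map_zero, map_zero] at hy
      rw [(_root_.map_eq_zero _).1 hy, norm_zero]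
      exact zero_le_one
    · exact (hy1 hz0).le
  have hle' : ∀ z ∈ Z, ∀ y : i.Lv,
      algebraMap i.Lv (AlgebraicClosure i.Lv) y = ι (fr.e z) → ‖y‖ ≤ 1 := by
    intro z hz y hy
    obtain ⟨y', hy', hy1⟩ := hle z hz
    have e : y = y' := (algebraMap i.Lv (AlgebraicClosure i.Lv)).injective (hy.trans hy'.symm)
    rw [e]
    exact hy1
  have hone : ∀ z ∈ Z, z ≠ 0 → ∀ y : i.Lv,
      algebraMap i.Lv (AlgebraicClosure i.Lv) y = ι (fr.e z) → ‖y‖ = 1 := by
    intro z hz hz0 y hy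
    obtain ⟨y', hy', hy1⟩ := hZι z hz
    have e : y = y' := (algebraMap i.Lv (AlgebraicClosure i.Lv)).injective (hy.trans hy'.symm)
    rw [e]
    exact hy1 hz0
  have hFL : ∀ r : RatFunc K, algebraMap (RatFunc K) (AlgebraicClosure i.Lv) r =
      algebraMap i.Lv (AlgebraicClosure i.Lv) (i.φ r) :=
    fun r => IsScalarTower.algebraMap_apply (RatFunc K) i.Lv (AlgebraicClosure i.Lv) r
  have hιe : ∀ a : K, ι (fr.e (algebraMap K (AlgebraicClosure K) a)) =
      algebraMap i.Lv (AlgebraicClosure i.Lv) (i.φ (cc a)) := by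
    intro a
    rw [fr.e.commutes, IsScalarTower.algebraMap_apply K (RatFunc K) (Kb K), ι.commutes, hFL]
  have hn : ∀ a : K, algebraMap K (AlgebraicClosure K) a ∈ Z → ‖i.φ (cc a)‖ ≤ 1 :=
    fun a ha => hle' _ ha _ (hιe a).symm
  have hd : ∀ a b : K, a ≠ b → algebraMap K (AlgebraicClosure K) (a - b) ∈ Z →
      ‖i.φ (cc a) - i.φ (cc b)‖ = 1 := by
    intro a b hab ha
    have h := hone _ ha ((_root_.map_ne_zero _).2 (sub_ne_zero.2 hab)) _ (hιe (a - b)).symm
    rwa [cc, map_sub, map_sub] at h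
  have n1 := hn e1 (by simp [hZdef])
  have n2 := hn e2 (by simp [hZdef])
  have n3 := hn e3 (by simp [hZdef])
  have n12 := hd e1 e2 h12 (by simp [hZdef])
  have n13 := hd e1 e3 h13 (by simp [hZdef])
  -- the coefficients
  have hε0' : 0 < ‖ε‖ := norm_pos_iff.2 hε0
  have hPn : ‖i.φ (algebraMap K[X] (RatFunc K) P)‖ = ‖ε‖ ^ (mu P ρ) := by
    obtain ⟨w, hw, hw1⟩ := exists_eval (L := i.Lv)
      ((ι : Kb K →+* AlgebraicClosure i.Lv).comp (fr.e : AlgebraicClosure K →+* Kb K))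
      (algebraMap i.Lv (AlgebraicClosure i.Lv)) q
      (fun n => by
        rcases hcZ n with h0 | h0
        · exact ⟨0, by rw [h0, map_zero, map_zero], by rw [norm_zero]; exact zero_le_one⟩
        · exact hle _ h0) hρv (hle' _ hρZ _ hρv) hε1
      (hone _ (by simp [hZdef]) hqe)
    have h1 : ∀ p : K[X], algebraMap i.Lv (AlgebraicClosure i.Lv)
        (i.φ (algebraMap K[X] (RatFunc K) p)) =
        eval₂ ((ι : Kb K →+* AlgebraicClosure i.Lv).comp (fr.e : AlgebraicClosure K →+* Kb K))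
          (algebraMap i.Lv (AlgebraicClosure i.Lv) (ρv + ε))
          (p.map (algebraMap K (AlgebraicClosure K))) := by
      intro p
      rw [eval₂_map]
      have e : (algebraMap i.Lv (AlgebraicClosure i.Lv)).comp
          (i.φ.comp (algebraMap K[X] (RatFunc K))) =
          eval₂RingHom (((ι : Kb K →+* AlgebraicClosure i.Lv).comp
            (fr.e : AlgebraicClosure K →+* Kb K)).comp (algebraMap K (AlgebraicClosure K)))
            (algebraMap i.Lv (AlgebraicClosure i.Lv) (ρv + ε)) := by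
        apply Polynomial.ringHom_ext
        · intro a
          rw [coe_eval₂RingHom, eval₂_C]
          change algebraMap i.Lv (AlgebraicClosure i.Lv)
            (i.φ (algebraMap K[X] (RatFunc K) (C a))) =
            ι (fr.e (algebraMap K (AlgebraicClosure K) a))
          rw [hιe, RatFunc.algebraMap_C]
          rfl
        · rw [coe_eval₂RingHom, eval₂_X]
          change algebraMap i.Lv (AlgebraicClosure i.Lv)
            (i.φ (algebraMap K[X] (RatFunc K) X)) = _
          rw [RatFunc.algebraMap_X, hX]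
      exact congrArg (fun f : K[X] →+* AlgebraicClosure i.Lv => f p) e
    have h2 : i.φ (algebraMap K[X] (RatFunc K) P) = ε ^ (mu P ρ) * w := by
      apply (algebraMap i.Lv (AlgebraicClosure i.Lv)).injective
      rw [h1, hq, eval₂_mul, eval₂_pow, eval₂_sub, eval₂_X, eval₂_C, ← hw, map_mul,
        map_pow]
      congr 2
      rw [RingHom.comp_apply]
      change _ - ι (fr.e ρ) = _
      rw [← hρv, ← map_sub, add_sub_cancel_left]
    rw [h2, norm_mul, hw1, mul_one, norm_pow]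
  have hP0 : i.φ (algebraMap K[X] (RatFunc K) P) ≠ 0 := by
    rw [← norm_ne_zero_iff, hPn]
    exact (pow_pos hε0' _).ne'
  -- comparison of exponents
  have hexp : ∀ (u : i.Lv) (b : ℕ), u ≠ 0 → ‖u‖ ^ 2 = ‖ε‖ ^ b → 2 ∣ b := by
    intro u b hu h
    obtain ⟨n, hn⟩ := hεn u hu
    have hn' : ‖u‖ = ‖ε‖ ^ n := hn
    have h2 : ‖ε‖ ^ (n * 2) = ‖ε‖ ^ (b : ℤ) := by
      rw [zpow_mul, zpow_natCast, ← hn']
      exact_mod_cast h
    have h3 := zpow_right_injective₀ hε0' hε1.ne h2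
    have h4 : (2 : ℤ) ∣ (b : ℤ) := ⟨n, by rw [← h3]; ring⟩
    exact_mod_cast h4
  obtain ⟨W, hW, T, w, hw⟩ := hloc i
  have hinjc : ∀ a b : K, a ≠ b → i.φ (cc a) ≠ i.φ (cc b) := fun a b hab h =>
    hab ((algebraMap K (RatFunc K)).injective (i.φ.injective h))
  have key : ∃ u : i.Lv, u ≠ 0 ∧
      ‖dlW (i.φ (cc e1)) (i.φ (cc e2)) (i.φ (cc e3)) T‖ = ‖u‖ ^ 2 := by
    rcases T with _ | ⟨x, y, hxy⟩
    · refine ⟨1, one_ne_zero, ?_⟩
      change ‖(1 : i.Lv)‖ = _
      rw [norm_one, one_pow]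
    · rw [dlW_some]
      by_cases hx : x = i.φ (cc e1)
      · refine ⟨1, one_ne_zero, ?_⟩
        rw [if_pos hx, norm_mul, n12, n13, norm_one, one_pow, one_mul]
      · rw [if_neg hx]
        exact norm_sq n1 n2 n3 n12 n13 hx (eqn_sw hW hxy)
  obtain ⟨u, hu, hu2⟩ := key
  have hu0 : ‖u‖ ≠ 0 := norm_ne_zero_iff.2 hu
  have h5 := congrArg (fun z : i.Lv => ‖z‖) hw
  simp only [norm_mul] at h5
  rw [hPn, hu2] at h5
  have hw0 : w ≠ 0 := by
    rintro rfl
    rw [norm_zero, mul_zero] at h5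
    exact (mul_ne_zero (pow_pos hε0' _).ne' (pow_ne_zero _ hu0)) h5
  refine hexp (w / u) _ (div_ne_zero hw0 hu) ?_
  rw [norm_div, div_pow, div_eq_iff (pow_ne_zero _ hu0), h5]
  ring

end Pool.Agent.R425.CC
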