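import Pool.Agent.Y791.BC.Desc2T
import Pool.Agent.Y791.BC.SelB
import Pool.Agent.Y791.BF.TypesL
import Pool.Agent.Y791.BF.Level

/-!
# Halves of points over a level
-/

set_option autoImplicit false
set_option linter.all false

open Polynomial IsDedekindDomain NumberField WeierstrassCurve

namespace Pool.Agent.R425.CC

open Pool.Agent.TH942 Pool.Agent.TH954 Pool.Agent.Y791.BS Pool.Agent.Y791.BF
  Pool.Agent.Y791.BC Pool.Agent.Y791.BC.Desc2T Pool.Agent.H918R3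
  Pool.Agent.H918R3.TB1 Pool.Agent.Y65.D2

open scoped Classical

section half

variable {K M : Type} [Field K] [Field M] [CharZero M] [Algebra K M] {E : WeierstrassCurve K}

lemma ww_one {e f g : M} (hW : crv e f g = E.baseChange M) (hef : e ≠ f) (heg : e ≠ g)
    (hfg : f ≠ g) (φ : M →ₐ[K] M) (he : φ e = e) (hf : φ f = f) (hg : φ g = g) {r : M}
    (hr : φ r = r) (Q T : (E.baseChange M).toAffine.Point) (hQ0 : Q + Q ≠ 0)
    (h : dlW e f g (Q + Q) = r ^ 2) (hT : T + T = 0) (hQT : pm E φ Q = Q + T) : ww e T = 1 := by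
  have h1 := rr_sq' two_ne_zero hW Q hQ0
  rw [h] at h1
  have h2 : φ (rr e f g Q) = rr e f g Q := by
    rcases sq_eq_sq_iff_eq_or_eq_neg.1 h1 with h3 | h3
    · rw [h3, hr]
    · rw [h3, map_neg, hr]
  have h3 := rr_pm (E := E) φ e f g Q
  rw [he, hf, hg, h2, hQT, rr_add' two_ne_zero hW hef heg hfg Q T hQ0 hT] at h3
  have h4 : ((ww e T : ℤ) : M) = 1 :=
    mul_right_cancel₀ (rr_ne' two_ne_zero hW Q) (h3.trans (one_mul _).symm)
  exact_mod_cast h4

theorem half_fixed {e1 e2 e3 : M} (hW : crv e1 e2 e3 = E.baseChange M) (h12 : e1 ≠ e2)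
    (h13 : e1 ≠ e3) (h23 : e2 ≠ e3) (φ : M →ₐ[K] M) (hf1 : φ e1 = e1) (hf2 : φ e2 = e2)
    (hf3 : φ e3 = e3) {r1 r2 : M} (hr1 : φ r1 = r1) (hr2 : φ r2 = r2)
    (Q : (E.baseChange M).toAffine.Point) (hQ0 : Q + Q ≠ 0)
    (hQ : pm E φ (Q + Q) = Q + Q)
    (h1 : dlW e1 e2 e3 (Q + Q) = r1 ^ 2) (h2 : dlW e2 e1 e3 (Q + Q) = r2 ^ 2) :
    pm E φ Q = Q := by
  set T := pm E φ Q - Q with hTd
  have hT : T + T = 0 := by
    rw [map_add] at hQ
    have e : T + T = (pm E φ Q + pm E φ Q) - (Q + Q) := by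
      rw [hTd]
      abel
    rw [e, hQ, sub_self]
  have hQT : pm E φ Q = Q + T := by
    rw [hTd]
    abel
  have w1 := ww_one hW h12 h13 h23 φ hf1 hf2 hf3 hr1 Q T hQ0 h1 hT hQT
  have w2 := ww_one ((crv_swap _ _ _).trans hW) h12.symm h23 h13 φ hf2 hf1 hf3 hr2 Q T hQ0 h2 hT
    hQT
  have h0 : T = 0 := ww_inj' two_ne_zero hW h12 h13 h23 hT (add_zero 0) w1 w2
  rw [hQT, h0, add_zero]

/-- points with a root of the cubic as coordinate -/
lemma two_tors {W : WeierstrassCurve M} {e1 e2 e3 : M} (hW : crv e1 e2 e3 = W) {x y : M}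
    (h : W.toAffine.Nonsingular x y) (hx : (x - e1) * (x - e2) * (x - e3) = 0) :
    2 • (Affine.Point.some x y h : W.toAffine.Point) = 0 := by
  subst hW
  have h1 : y ^ 2 = 0 := by
    rw [(crv_eqn).1 h.1, hx]
  have hy : y = 0 := pow_eq_zero_iff two_ne_zero |>.1 h1
  rw [two_nsmul]
  apply Affine.Point.add_self_of_Y_eq
  rw [Affine.negY, hy]
  simp [crv]

lemma eqn_sw {W : WeierstrassCurve M} {e1 e2 e3 : M} (hW : crv e1 e2 e3 = W) {x y : M}
    (h : W.toAffine.Nonsingular x y) : y ^ 2 = (x - e1) * (x - e2) * (x - e3) := by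
  subst hW
  exact (crv_eqn).1 h.1

end half

end Pool.Agent.R425.CC
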