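import Pool.Agent.R425.CC.Tower

/-!
# The first level, lifts of automorphisms
-/

set_option autoImplicit false
set_option linter.all false

open Polynomial IsDedekindDomain NumberField WeierstrassCurve

namespace Pool.Agent.R425.CC

open Pool.Agent.TH942 Pool.Agent.TH954 Pool.Agent.Y791.BS Pool.Agent.Y791.BF
  Pool.Agent.Y791.BC Pool.Agent.Y791.BC.Desc2T Pool.Agent.H918R3
  Pool.Agent.H918R3.TB1 Pool.Agent.Y65.D2

open scoped Classical

section

variable {K : Type} [Field K] [CharZero K]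

lemma exists_roots {a b : K} (hD : 4 * a ^ 3 + 27 * b ^ 2 ≠ 0) :
    ∃ z1 z2 z3 : AlgebraicClosure K, z1 + z2 + z3 = 0 ∧
      algebraMap K (AlgebraicClosure K) a = z1 * z2 + z1 * z3 + z2 * z3 ∧
      algebraMap K (AlgebraicClosure K) b = -(z1 * z2 * z3) ∧ z1 ≠ z2 ∧ z1 ≠ z3 ∧ z2 ≠ z3 := by
  set A := algebraMap K (AlgebraicClosure K) a with hA
  set B := algebraMap K (AlgebraicClosure K) b with hB
  obtain ⟨z1, h1⟩ := IsAlgClosed.exists_root (X ^ 3 + C A * X + C B) (by
    have : (X ^ 3 + C A * X + C B).degree = 3 := by compute_degree!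
    rw [this]
    norm_num)
  obtain ⟨z2, h2⟩ := IsAlgClosed.exists_root (X ^ 2 + C z1 * X + C (A + z1 ^ 2)) (by
    have : (X ^ 2 + C z1 * X + C (A + z1 ^ 2)).degree = 2 := by compute_degree!
    rw [this]
    norm_num)
  simp only [IsRoot.def, eval_add, eval_mul, eval_pow, eval_X, eval_C] at h1 h2
  have ea : A = z1 * z2 + z1 * (-z1 - z2) + z2 * (-z1 - z2) := by linear_combination h2
  have eb : B = -(z1 * z2 * (-z1 - z2)) := by linear_combination h1 - z1 * h2
  have hd : 4 * A ^ 3 + 27 * B ^ 2 =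
      -((z1 - z2) * (z1 - (-z1 - z2)) * (z2 - (-z1 - z2))) ^ 2 := by
    rw [ea, eb]
    ring
  have hd0 : 4 * A ^ 3 + 27 * B ^ 2 ≠ 0 := by
    have : 4 * A ^ 3 + 27 * B ^ 2 = algebraMap K (AlgebraicClosure K) (4 * a ^ 3 + 27 * b ^ 2) := by
      rw [hA, hB]
      simp only [map_add, map_mul, map_pow, map_ofNat]
    rw [this]
    exact (_root_.map_ne_zero _).2 hD
  refine ⟨z1, z2, -z1 - z2, by ring, ea, eb, ?_, ?_, ?_⟩
  · intro h
    apply hd0
    rw [hd, sub_eq_zero.2 h]
    ring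
  · intro h
    apply hd0
    rw [hd, sub_eq_zero.2 h]
    ring
  · intro h
    apply hd0
    rw [hd, sub_eq_zero.2 h]
    ring

/-- the first level -/
theorem exists_first (hess : Algebra.EssFiniteType ℚ K) [CharZero (RatFunc K)]
    (e : AlgebraicClosure K →ₐ[K] Kb K) {a b : K} {z1 z2 z3 : AlgebraicClosure K}
    (hs : z1 + z2 + z3 = 0)
    (ha : algebraMap K (AlgebraicClosure K) a = z1 * z2 + z1 * z3 + z2 * z3)
    (hb : algebraMap K (AlgebraicClosure K) b = -(z1 * z2 * z3)) :
    ∃ E : Lvl (RatFunc K), Inv e z1 z2 z3 E := by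
  let E0 : Lvl (RatFunc K) :=
    { K := K
      ess := hess
      κ := algebraMap (RatFunc K) (Kb K)
      m := RingHom.id _
      hκ := fun c => rfl
      α := 0
      hα := fun τ _ c => τ.commutes c }
  have hcst0 : E0.cst = algebraMap K (Kb K) :=
    (IsScalarTower.algebraMap_eq K (RatFunc K) (Kb K)).symm
  have hC0 : ∀ w, E0.IsCst w → ∃ z, e z = w := by
    rintro w ⟨p, hp0, hp⟩
    rw [hcst0] at hp
    exact alg_range e (show IsAlgebraic K w from ⟨p, hp0, hp⟩)
  have hg : (X ^ 3 + C a * X + C b : K[X]) ≠ 0 := by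
    intro h
    have h1 : (X ^ 3 + C a * X + C b : K[X]).coeff 3 = 0 := by rw [h, coeff_zero]
    have h2 : (X ^ 3 + C a * X + C b : K[X]).coeff 3 = 1 := by
      simp [coeff_X, coeff_C]
    rw [h2] at h1
    exact one_ne_zero h1
  obtain ⟨E', j, hcst, hS', hsp, hc1, hc2, hfix⟩ := Level.ext (RatFunc K) E0
    (X ^ 3 + C a * X + C b) hg
  have hroot : ∀ z : AlgebraicClosure K, (z - z1) * (z - z2) * (z - z3) = 0 →
      ∃ θ, E'.cst θ = e z := by
    intro z hz
    have h0 : (X ^ 3 + C a * X + C b : K[X]).map j ≠ 0 :=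
      (Polynomial.map_ne_zero_iff j.injective).2 hg
    have h1 : e z ∈ E'.cst.range := by
      refine hsp.mem_range_of_isRoot h0 ?_
      have h2 : E'.cst.comp j = algebraMap K (Kb K) := by
        rw [← hcst0]
        exact RingHom.ext hcst
      rw [Polynomial.map_map, h2, IsRoot.def, eval_map]
      change aeval (e z) (X ^ 3 + C a * X + C b : K[X]) = 0
      have h3 : aeval (e z) (X ^ 3 + C a * X + C b : K[X]) =
          e (aeval z (X ^ 3 + C a * X + C b : K[X])) := by
        rw [aeval_algHom_apply]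
      have h4 : aeval z (X ^ 3 + C a * X + C b : K[X]) = 0 := by
        simp only [map_add, map_mul, map_pow, aeval_X, aeval_C, ha, hb]
        linear_combination hz + z ^ 2 * hs
      rw [h3, h4, map_zero]
    exact h1
  exact ⟨E', hS', fun w hw => hC0 w (hc1 w hw), hroot z1 (by ring), hroot z2 (by ring),
    hroot z3 (by ring)⟩

/-- lifts of automorphisms -/
lemma exists_liftT (e : AlgebraicClosure K →ₐ[K] Kb K)
    (τ0 : AlgebraicClosure K ≃ₐ[K] AlgebraicClosure K) :
    ∃ τ : Kb K ≃ₐ[RatFunc K] Kb K, ∀ z, τ (e z) = e (τ0 z) := by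
  obtain ⟨ι, h1, h2, h3⟩ := Level.exists_hom e (algebraMap (RatFunc K) (Kb K) RatFunc.X) 1 one_pos
    (pow_one _) (algebraMap (RatFunc K) (Kb K))
    ((e : AlgebraicClosure K →+* Kb K).comp (τ0 : AlgebraicClosure K →+* AlgebraicClosure K))
    (fun c => by
      change e (τ0 (algebraMap K _ c)) = _
      rw [τ0.commutes, e.commutes]
      exact IsScalarTower.algebraMap_apply K (RatFunc K) (Kb K) c)
    (algebraMap (RatFunc K) (Kb K) RatFunc.X) (pow_one _)
  let γ : Kb K →ₐ[RatFunc K] Kb K := { ι with commutes' := h1 }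
  exact ⟨AlgEquiv.ofBijective γ (Algebra.IsAlgebraic.algHom_bijective γ), fun z => h2 z⟩

/-- an automorphism which fixes finitely many constants fixes the level -/
lemma fix_kappa (e : AlgebraicClosure K →ₐ[K] Kb K) {z1 z2 z3 : AlgebraicClosure K}
    {E : Lvl (RatFunc K)} (hE : Inv e z1 z2 z3 E) :
    ∃ Z : Finset (AlgebraicClosure K), ∀ τ : Kb K ≃ₐ[RatFunc K] Kb K,
      (∀ z ∈ Z, τ (e z) = e z) → ∀ c, τ (E.κ c) = E.κ c := by
  have hess : Algebra.EssFiniteType ℚ E.K := E.ess
  have h1 : ∀ c : E.K, ∃ z, e z = E.cst c := fun c => hE.2.1 _ ⟨X - C c, X_sub_C_ne_zero c, by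
    rw [eval₂_sub, eval₂_X, eval₂_C, sub_self]⟩
  choose w hw using h1
  refine ⟨(Algebra.EssFiniteType.finset ℚ E.K).image w, fun τ hτ => ?_⟩
  have h2 : (τ : Kb K →+* Kb K).comp E.cst = E.cst := by
    have h3 : (((τ : Kb K →+* Kb K).comp E.cst).toRatAlgHom) = E.cst.toRatAlgHom := by
      apply Algebra.EssFiniteType.algHom_ext
      intro s hs
      change τ (E.cst s) = E.cst s
      rw [← hw s]
      exact hτ _ (Finset.mem_image_of_mem w hs)
    exact RingHom.ext fun c => congrArg (fun f => f c) h3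
  have h4 : (τ : Kb K →+* Kb K).comp E.κ = E.κ := by
    apply ratFunc_hom_ext
    · intro c
      exact congrArg (fun f : E.K →+* Kb K => f c) h2
    · change τ E.S = E.S
      rw [hE.1, τ.commutes]
  intro c
  exact congrArg (fun f : RatFunc E.K →+* Kb K => f c) h4

end

end Pool.Agent.R425.CC
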