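import Pool.Agent.R425.CC.Half

/-!
# Local two-descent for cocycles along an embedding
-/

set_option autoImplicit false
set_option linter.all false

open Polynomial IsDedekindDomain NumberField WeierstrassCurve

namespace Pool.Agent.R425.CC

open Pool.Agent.TH942 Pool.Agent.TH954 Pool.Agent.Y791.BS Pool.Agent.Y791.BF
  Pool.Agent.Y791.BC Pool.Agent.Y791.BC.Desc2T Pool.Agent.H918R3
  Pool.Agent.H918R3.TB1 Pool.Agent.Y65.D2

open scoped Classical

section

variable {k : Type} [Field k] [CharZero k] {E : WeierstrassCurve k} {L : Type} [Field L]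
  [CharZero L] [Algebra k L] {e f g : L}

/-- points of order two with coordinates in the local field are fixed -/
lemma act_tors' (hC : crv (algebraMap L (AlgebraicClosure L) e)
      (algebraMap L (AlgebraicClosure L) f) (algebraMap L (AlgebraicClosure L) g) =
        E.baseChange (AlgebraicClosure L))
    (σ : AlgebraicClosure L ≃ₐ[L] AlgebraicClosure L) {T : AlgPt E L} (hT : T + T = 0) :
    act E σ T = T := by
  rcases tors2' two_ne_zero hC hT with rfl | ⟨t, n, rfl, ht⟩
  · exact map_zero _
  · have h1 : ((σ : AlgebraicClosure L →ₐ[L] AlgebraicClosure L).restrictScalars k) t = t := by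
      rcases ht with rfl | rfl | rfl <;> exact σ.commutes _
    unfold act
    obtain ⟨h', e1⟩ := pm_some (E := E)
      ((σ : AlgebraicClosure L →ₐ[L] AlgebraicClosure L).restrictScalars k) n
    rw [e1]
    simp only [Affine.Point.some.injEq]
    exact ⟨h1, map_zero _⟩

theorem part_loc (hC : crv (algebraMap L (AlgebraicClosure L) e)
      (algebraMap L (AlgebraicClosure L) f) (algebraMap L (AlgebraicClosure L) g) =
        E.baseChange (AlgebraicClosure L)) (hef : e ≠ f) (heg : e ≠ g) (hfg : f ≠ g)
    {ζ : (AlgebraicClosure k ≃ₐ[k] AlgebraicClosure k) → AlgPt E k}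
    (ι : AlgebraicClosure k →ₐ[k] AlgebraicClosure L) (Q : AlgPt E L)
    (hQ : ∀ σ τ, Compat ι σ τ → pm E ι (ζ τ) = act E σ Q - Q)
    (hζ : ∀ σ τ, Compat (L := L) ι σ τ → ζ τ + ζ τ = 0) {s : AlgebraicClosure L} {c : L}
    (hsc : s * s = algebraMap L (AlgebraicClosure L) c)
    (hs : ∀ σ τ, Compat ι σ τ →
      σ s = ((ww (algebraMap L (AlgebraicClosure L) e) (pm E ι (ζ τ)) : ℤ) :
        AlgebraicClosure L) * s) :
    ∃ P : (E.baseChange L).toAffine.Point, IsSquare (c * dlW e f g P) := by
  have hcM : CharZero (AlgebraicClosure L) :=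
    charZero_of_injective_algebraMap (algebraMap L (AlgebraicClosure L)).injective
  have hinj := RingHom.injective (algebraMap L (AlgebraicClosure L))
  by_cases hQ2 : Q + Q = 0
  · refine ⟨0, ?_⟩
    have hfix : s ∈ Set.range (algebraMap L (AlgebraicClosure L)) := by
      rw [InfiniteGalois.mem_range_algebraMap_iff_fixed]
      intro σ
      obtain ⟨τ, hτ⟩ := exists_compat ι σ
      rw [hs σ τ hτ, hQ σ τ hτ, act_tors' hC σ hQ2, sub_self]
      change ((1 : ℤ) : (AlgebraicClosure L)) * s = s
      rw [Int.cast_one, one_mul]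
    obtain ⟨u, hu⟩ := hfix
    refine ⟨u, ?_⟩
    change c * 1 = u * u
    apply hinj
    rw [mul_one, map_mul, hu, hsc]
  · obtain ⟨P, hP⟩ := exists_of_fixed (E := E) (Q + Q) (by
      intro σ
      obtain ⟨τ, hτ⟩ := exists_compat ι σ
      have h1 : act E σ Q = Q + pm E ι (ζ τ) := by rw [hQ σ τ hτ]; abel
      rw [act_add, h1, add_add_add_comm, ← map_add, hζ σ τ hτ, map_zero, add_zero])
    refine ⟨P, ?_⟩
    have hfix : rr (algebraMap L (AlgebraicClosure L) e) (algebraMap L (AlgebraicClosure L) f) (algebraMap L (AlgebraicClosure L) g) Q * s ∈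
        Set.range (algebraMap L (AlgebraicClosure L)) := by
      rw [InfiniteGalois.mem_range_algebraMap_iff_fixed]
      intro σ
      obtain ⟨τ, hτ⟩ := exists_compat ι σ
      have h1 : act E σ Q = Q + pm E ι (ζ τ) := by rw [hQ σ τ hτ]; abel
      have h2 : σ (rr (algebraMap L (AlgebraicClosure L) e) (algebraMap L (AlgebraicClosure L) f) (algebraMap L (AlgebraicClosure L) g) Q) =
          rr (algebraMap L (AlgebraicClosure L) e) (algebraMap L (AlgebraicClosure L) f) (algebraMap L (AlgebraicClosure L) g) (act E σ Q) := by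
        have h3 := rr_pm (E := E) ((σ : (AlgebraicClosure L) →ₐ[L] (AlgebraicClosure L)).restrictScalars k) (algebraMap L (AlgebraicClosure L) e)
          (algebraMap L (AlgebraicClosure L) f) (algebraMap L (AlgebraicClosure L) g) Q
        have c1 : ∀ x : L, ((σ : (AlgebraicClosure L) →ₐ[L] (AlgebraicClosure L)).restrictScalars k) (algebraMap L (AlgebraicClosure L) x) =
            algebraMap L (AlgebraicClosure L) x := fun x => σ.commutes x
        rw [c1, c1, c1] at h3
        exact h3.symm
      have h4 : pm E ι (ζ τ) + pm E ι (ζ τ) = 0 := by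
        rw [← map_add, hζ σ τ hτ, map_zero]
      rw [map_mul, h2, h1, rr_add' two_ne_zero hC (hinj.ne hef) (hinj.ne heg) (hinj.ne hfg) Q _
        hQ2 h4, hs σ τ hτ]
      have h6 := ww_mul_self (algebraMap L (AlgebraicClosure L) e) (pm E ι (ζ τ))
      have h7 : ((ww (algebraMap L (AlgebraicClosure L) e) (pm E ι (ζ τ)) : ℤ) : (AlgebraicClosure L)) *
          ((ww (algebraMap L (AlgebraicClosure L) e) (pm E ι (ζ τ)) : ℤ) : (AlgebraicClosure L)) = 1 := by
        rw [← Int.cast_mul, h6, Int.cast_one]
      linear_combination (rr (algebraMap L (AlgebraicClosure L) e) (algebraMap L (AlgebraicClosure L) f) (algebraMap L (AlgebraicClosure L) g) Q * s) * h7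
    obtain ⟨u, hu⟩ := hfix
    refine ⟨u, ?_⟩
    apply hinj
    rw [map_mul, map_mul, hu]
    have h8 : algebraMap L (AlgebraicClosure L) (dlW e f g P) =
        dlW (algebraMap L (AlgebraicClosure L) e) (algebraMap L (AlgebraicClosure L) f) (algebraMap L (AlgebraicClosure L) g) (Q + Q) := by
      have h9 := dlW_pm (E := E) (IsScalarTower.toAlgHom k L (AlgebraicClosure L)) e f g P
      rw [← hP]
      exact h9.symm
    rw [h8, ← hsc, ← rr_sq' two_ne_zero hC Q hQ2]
    ring

end

end Pool.Agent.R425.CC
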