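import Pool.Agent.R425.CC.Init
import Pool.Agent.R425.CC.Loc
import Pool.Agent.R425.CC.Even
import Pool.Agent.R425.D.Coc

/-!
# Kummer classes of cocycles at a level
-/

set_option autoImplicit false
set_option linter.all false

open Polynomial IsDedekindDomain NumberField WeierstrassCurve

namespace Pool.Agent.R425.CC

open Pool.Agent.TH942 Pool.Agent.TH954 Pool.Agent.Y791.BS Pool.Agent.Y791.BF
  Pool.Agent.Y791.BC Pool.Agent.Y791.BC.Desc2T Pool.Agent.H918R3
  Pool.Agent.H918R3.TB1 Pool.Agent.Y65.D2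

open scoped Classical

section gen

variable {k : Type} [Field k] [CharZero k] {E : WeierstrassCurve k} {x y w : AlgebraicClosure k}

lemma act_torsG (hC : crv x y w = E.baseChange (AlgebraicClosure k))
    (σ : AlgebraicClosure k ≃ₐ[k] AlgebraicClosure k) (h : σ x = x ∧ σ y = y ∧ σ w = w)
    {T : AlgPt E k} (hT : T + T = 0) : act E σ T = T := by
  have hcM : CharZero (AlgebraicClosure k) :=
    charZero_of_injective_algebraMap (algebraMap k (AlgebraicClosure k)).injective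
  rcases tors2' two_ne_zero hC hT with rfl | ⟨t, n, rfl, ht⟩
  · exact map_zero _
  · have h1 : ((σ : AlgebraicClosure k →ₐ[k] AlgebraicClosure k).restrictScalars k) t = t := by
      rcases ht with rfl | rfl | rfl
      · exact h.1
      · exact h.2.1
      · exact h.2.2
    unfold act
    obtain ⟨h', e1⟩ := pm_some (E := E)
      ((σ : AlgebraicClosure k →ₐ[k] AlgebraicClosure k).restrictScalars k) n
    rw [e1]
    simp only [Affine.Point.some.injEq]
    exact ⟨h1, map_zero _⟩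

theorem kummerT (hC : crv x y w = E.baseChange (AlgebraicClosure k)) (hxy : x ≠ y) (hxw : x ≠ w)
    (hyw : y ≠ w) (hex : ∃ Q : AlgPt E k, Q + Q ≠ 0)
    (T : Subgroup (AlgebraicClosure k ≃ₐ[k] AlgebraicClosure k))
    (hT : ∀ σ ∈ T, σ x = x ∧ σ y = y ∧ σ w = w)
    {ζ : (AlgebraicClosure k ≃ₐ[k] AlgebraicClosure k) → AlgPt E k} (hc : IsCocycle E ζ)
    (hζ : ∀ σ ∈ T, ζ σ + ζ σ = 0) :
    ∃ s : AlgebraicClosure k, s ≠ 0 ∧ ∀ σ ∈ T,
      σ s = ((ww x (ζ σ) : ℤ) : AlgebraicClosure k) * s := by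
  have hcM : CharZero (AlgebraicClosure k) :=
    charZero_of_injective_algebraMap (algebraMap k (AlgebraicClosure k)).injective
  have hmul : ∀ σ ∈ T, ∀ τ ∈ T, ζ (σ * τ) = ζ σ + ζ τ := by
    intro σ hσ τ hτ
    rw [hc.1, act_torsG hC σ (hT σ hσ) (hζ τ hτ)]
  have h1 : ζ 1 = 0 := by
    have := hmul 1 T.one_mem 1 T.one_mem
    rw [mul_one] at this
    exact left_eq_add.1 this
  obtain ⟨F', hfin, hF'⟩ := hc.2
  obtain ⟨s, hs0, hs⟩ := exists_eigen (k := k) (A := AlgebraicClosure k) T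
    (fun σ => ((ww x (ζ σ) : ℤ) : AlgebraicClosure k))
    (fun σ _ => by
      rcases ww_or x (ζ σ) with h | h <;> simp [h])
    (fun σ hσ τ hτ => by
      change ((ww _ (ζ (σ * τ)) : ℤ) : AlgebraicClosure k) = _
      rw [hmul σ hσ τ hτ, ww_add' hC hxy hxw hyw hex _ _ (hζ σ hσ) (hζ τ hτ), Int.cast_mul])
    (fun σ _ τ _ => map_intCast σ _) F'
    (fun σ _ hσ => by
      have h2 : ζ σ = ζ 1 := by
        apply hF'
        intro x hx
        exact (IntermediateField.mem_fixingSubgroup_iff F' σ).1 hσ x hx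
      change ((ww _ (ζ σ) : ℤ) : AlgebraicClosure k) = 1
      rw [h2, h1]
      exact Int.cast_one)
  exact ⟨s, hs0, hs⟩

lemma cocycle_nsmul {ξ : (AlgebraicClosure k ≃ₐ[k] AlgebraicClosure k) → AlgPt E k}
    (hξ : IsCocycle E ξ) (N : ℕ) : IsCocycle E (fun σ => N • ξ σ) := by
  refine ⟨fun σ τ => ?_, ?_⟩
  · change N • ξ (σ * τ) = N • ξ σ + act E σ (N • ξ τ)
    rw [hξ.1 σ τ, nsmul_add, act_nsmul]
  · obtain ⟨F, hF, h⟩ := hξ.2
    exact ⟨F, hF, fun σ τ hστ => by
      change N • ξ σ = N • ξ τ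
      rw [h σ τ hστ]⟩

lemma triv_nsmul {ξ : (AlgebraicClosure k ≃ₐ[k] AlgebraicClosure k) → AlgPt E k} {L : Type}
    [Field L] [Algebra k L] (h : TrivialOver E ξ L) (N : ℕ) :
    TrivialOver E (fun σ => N • ξ σ) L := by
  obtain ⟨ι, Q, hQ⟩ := h
  refine ⟨ι, N • Q, fun σ τ hστ => ?_⟩
  change pm E ι (N • ξ τ) = _
  rw [map_nsmul, hQ σ τ hστ, act_nsmul, nsmul_sub]

end gen

section desc

lemma crv_descend {k L M : Type} [Field k] [Field L] [Field M] [Algebra k L] [Algebra k M]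
    [Algebra L M] [IsScalarTower k L M] {E : WeierstrassCurve k} {e1 e2 e3 : L}
    (h : crv (algebraMap L M e1) (algebraMap L M e2) (algebraMap L M e3) = E.baseChange M) :
    crv e1 e2 e3 = E.baseChange L := by
  have hinj := (algebraMap L M).injective
  have hk : ∀ c : k, algebraMap L M (algebraMap k L c) = algebraMap k M c := fun c =>
    (IsScalarTower.algebraMap_apply k L M c).symm
  ext
  · apply hinj
    have h1 := congrArg WeierstrassCurve.a₁ h
    change algebraMap L M 0 = algebraMap L M (algebraMap k L E.a₁)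
    rw [hk, map_zero]
    exact h1
  · apply hinj
    have h1 := congrArg WeierstrassCurve.a₂ h
    change algebraMap L M (-(e1 + e2 + e3)) = algebraMap L M (algebraMap k L E.a₂)
    rw [hk, map_neg, map_add, map_add]
    exact h1
  · apply hinj
    have h1 := congrArg WeierstrassCurve.a₃ h
    change algebraMap L M 0 = algebraMap L M (algebraMap k L E.a₃)
    rw [hk, map_zero]
    exact h1
  · apply hinj
    have h1 := congrArg WeierstrassCurve.a₄ h
    change algebraMap L M (e1 * e2 + e1 * e3 + e2 * e3) = algebraMap L M (algebraMap k L E.a₄)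
    rw [hk, map_add, map_add, map_mul, map_mul, map_mul]
    exact h1
  · apply hinj
    have h1 := congrArg WeierstrassCurve.a₆ h
    change algebraMap L M (-(e1 * e2 * e3)) = algebraMap L M (algebraMap k L E.a₆)
    rw [hk, map_neg, map_mul, map_mul]
    exact h1

end desc

section level

variable {K : Type} [Field K] [CharZero K]

/-- the group of a level -/
noncomputable def lvlField (E : Lvl (RatFunc K)) : IntermediateField (RatFunc K) (Kb K) :=
  E.κ.fieldRange.toIntermediateField (fun r => ⟨E.m r, E.hκ r⟩)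

lemma mem_lvl (E : Lvl (RatFunc K)) (σ : Kb K ≃ₐ[RatFunc K] Kb K) :
    σ ∈ (lvlField E).fixingSubgroup ↔ ∀ c, σ (E.κ c) = E.κ c := by
  rw [IntermediateField.mem_fixingSubgroup_iff]
  constructor
  · intro h c
    exact h _ ⟨c, rfl⟩
  · rintro h _ ⟨c, rfl⟩
    exact h c

lemma lvl_of_fixed [CharZero (RatFunc K)] (E : Lvl (RatFunc K)) {x : Kb K}
    (h : ∀ σ : Kb K ≃ₐ[RatFunc K] Kb K, (∀ c, σ (E.κ c) = E.κ c) → σ x = x) :
    ∃ c, E.κ c = x := by
  have h1 : x ∈ IntermediateField.fixedField (lvlField E).fixingSubgroup := by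
    rw [IntermediateField.mem_fixedField_iff]
    intro σ hσ
    exact h σ ((mem_lvl E σ).1 hσ)
  rw [InfiniteGalois.fixedField_fixingSubgroup] at h1
  exact h1

theorem kummer_const (hEmb : S_EmbFG) [CharZero (RatFunc K)] {E0 : WeierstrassCurve (RatFunc K)}
    {x1 x2 x3 : Kb K} (hC : ∀ (M : Type) [Field M] [Algebra (RatFunc K) M]
      (f : Kb K →ₐ[RatFunc K] M), crv (f x1) (f x2) (f x3) = E0.baseChange M)
    (E : Lvl (RatFunc K)) {θ1 θ2 θ3 : E.K} (h1 : E.cst θ1 = x1) (h2 : E.cst θ2 = x2)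
    (h3 : E.cst θ3 = x3) (h12 : x1 ≠ x2) (h13 : x1 ≠ x3) (h23 : x2 ≠ x3)
    {ζ : (Kb K ≃ₐ[RatFunc K] Kb K) → AlgPt E0 (RatFunc K)} (hζc : IsCocycle E0 ζ)
    (hζloc : ∀ i : PlF (RatFunc K), TrivialOver E0 ζ i.Lv)
    (hζ : ∀ σ, (∀ c, σ (E.κ c) = E.κ c) → ζ σ + ζ σ = 0) {s : Kb K} (hs0 : s ≠ 0)
    (hs : ∀ σ : Kb K ≃ₐ[RatFunc K] Kb K, (∀ c, σ (E.κ c) = E.κ c) →
      σ s = ((ww x1 (ζ σ) : ℤ) : Kb K) * s) :
    ∃ (d : E.K) (r : RatFunc E.K), s ^ 2 = E.cst d * E.κ r ^ 2 := by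
  have hess := E.ess
  have hcM : CharZero (Kb K) :=
    charZero_of_injective_algebraMap (algebraMap (RatFunc K) (Kb K)).injective
  obtain ⟨c, hcs⟩ := lvl_of_fixed E (x := s * s) (by
    intro σ hσ
    rw [map_mul, hs σ hσ]
    have h5 := ww_mul_self x1 (ζ σ)
    have h4 : ((ww x1 (ζ σ) : ℤ) : Kb K) * ((ww x1 (ζ σ) : ℤ) : Kb K) = 1 := by
      rw [← Int.cast_mul, h5, Int.cast_one]
    linear_combination (s * s) * h4)
  have hc0 : c ≠ 0 := by
    rintro rfl
    rw [map_zero] at hcs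
    exact (mul_ne_zero hs0 hs0) hcs.symm
  set P : E.K[X] := c.num * c.denom with hPd
  have hP0 : P ≠ 0 := mul_ne_zero (RatFunc.num_ne_zero hc0) c.denom_ne_zero
  have hden0 : algebraMap E.K[X] (RatFunc E.K) c.denom ≠ 0 :=
    (map_ne_zero_iff _ (RatFunc.algebraMap_injective E.K)).2 c.denom_ne_zero
  have hPc : algebraMap E.K[X] (RatFunc E.K) P =
      c * (algebraMap E.K[X] (RatFunc E.K) c.denom) ^ 2 := by
    have h5 := RatFunc.num_div_denom c
    rw [div_eq_iff hden0] at h5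
    rw [hPd, map_mul, h5]
    ring
  set dn : Kb K := E.κ (algebraMap E.K[X] (RatFunc E.K) c.denom) with hdn
  have hdn0 : dn ≠ 0 := (_root_.map_ne_zero _).2 hden0
  have hsP : (s * dn) * (s * dn) = E.κ (algebraMap E.K[X] (RatFunc E.K) P) := by
    rw [hPc, map_mul, hcs, map_pow]
    ring
  have t12 : θ1 ≠ θ2 := fun h => h12 (by rw [← h1, ← h2, h])
  have t13 : θ1 ≠ θ3 := fun h => h13 (by rw [← h1, ← h3, h])
  have t23 : θ2 ≠ θ3 := fun h => h23 (by rw [← h2, ← h3, h])
  have heven := even_mult hEmb t12 t13 t23 hP0 (fun i' => by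
    let i : PlF (RatFunc K) := ⟨i'.L, i'.v, i'.φ.comp E.m⟩
    have hci : CharZero i.Lv := charZero_compl i'.v
    have hcC : CharZero (AlgebraicClosure i.Lv) :=
      charZero_of_injective_algebraMap (algebraMap i.Lv _).injective
    let instm : Algebra (RatFunc K) (RatFunc E.K) := E.m.toAlgebra
    let instκ : Algebra (RatFunc E.K) (Kb K) := E.κ.toAlgebra
    have tow : IsScalarTower (RatFunc K) (RatFunc E.K) (Kb K) :=
      IsScalarTower.of_algebraMap_eq (fun c => (E.hκ c).symm)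
    have halg : Algebra.IsAlgebraic (RatFunc E.K) (Kb K) :=
      Algebra.IsAlgebraic.tower_top (K := RatFunc K) (RatFunc E.K)
    let ι1 : Kb K →ₐ[RatFunc E.K] AlgebraicClosure i'.Lv := IsAlgClosed.lift
    let ι : Kb K →ₐ[RatFunc K] AlgebraicClosure i.Lv :=
      { (ι1 : Kb K →+* AlgebraicClosure i'.Lv) with
        commutes' := fun c => by
          change ι1 (algebraMap (RatFunc K) (Kb K) c) = _
          rw [← E.hκ]
          exact ι1.commutes (E.m c) }
    have hικ : ∀ r : RatFunc E.K, ι (E.κ r) =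
        algebraMap i.Lv (AlgebraicClosure i.Lv) (i'.φ r) := fun r => ι1.commutes r
    obtain ⟨Q, hQ⟩ := Pool.Agent.R425.D.triv_all hζc (hζloc i) ι
    have hcomp : ∀ σ τ, Compat (L := i.Lv) ι σ τ → ∀ c, τ (E.κ c) = E.κ c := by
      intro σ τ hστ c
      apply RingHom.injective (ι : Kb K →+* AlgebraicClosure i.Lv)
      change ι (τ (E.κ c)) = ι (E.κ c)
      rw [hστ (E.κ c), hικ]
      exact σ.commutes _
    have hx1 : ι x1 = algebraMap i.Lv (AlgebraicClosure i.Lv) (i'.φ (cc θ1)) := by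
      rw [← h1]
      exact hικ _
    have hx2 : ι x2 = algebraMap i.Lv (AlgebraicClosure i.Lv) (i'.φ (cc θ2)) := by
      rw [← h2]
      exact hικ _
    have hx3 : ι x3 = algebraMap i.Lv (AlgebraicClosure i.Lv) (i'.φ (cc θ3)) := by
      rw [← h3]
      exact hικ _
    have hC' := hC (AlgebraicClosure i.Lv) ι
    rw [hx1, hx2, hx3] at hC'
    have hinjc : ∀ a b : E.K, a ≠ b → i'.φ (cc a) ≠ i'.φ (cc b) := fun a b hab h =>
      hab ((algebraMap E.K (RatFunc E.K)).injective (i'.φ.injective h))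
    obtain ⟨T, hT⟩ := part_loc (E := E0) (L := i.Lv) hC' (hinjc _ _ t12) (hinjc _ _ t13)
      (hinjc _ _ t23) ι Q hQ (fun σ τ hστ => hζ τ (hcomp σ τ hστ)) (s := ι (s * dn))
      (c := i'.φ (algebraMap E.K[X] (RatFunc E.K) P)) (by
        rw [← map_mul, hsP]
        exact hικ _) (fun σ τ hστ => by
        have h7 := hcomp σ τ hστ
        have h6 : ww (ι x1) (pm E0 ι (ζ τ)) = ww x1 (ζ τ) := ww_pm (E := E0) ι x1 (ζ τ)
        rw [hx1] at h6
        rw [h6, ← hστ (s * dn), map_mul, hs τ h7, hdn, h7, map_mul, map_mul, map_intCast, map_mul]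
        ring)
    have hcd := crv_descend (k := RatFunc K) (L := i.Lv) (M := AlgebraicClosure i.Lv) (E := E0) hC'
    have key : ∃ (W : WeierstrassCurve i.Lv) (_ : crv (K := i.Lv) (i'.φ (cc θ1)) (i'.φ (cc θ2))
        (i'.φ (cc θ3)) = W) (T : W.toAffine.Point),
        IsSquare (i'.φ (algebraMap E.K[X] (RatFunc E.K) P) *
          dlW (K := i.Lv) (i'.φ (cc θ1)) (i'.φ (cc θ2)) (i'.φ (cc θ3)) T) :=
      ⟨E0.baseChange i.Lv, hcd, T, hT⟩
    exact key)
  obtain ⟨d, h, hd, hh⟩ := Types.pow_const (l := 2) _ P hP0 rfl heven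
  refine ⟨d, algebraMap E.K[X] (RatFunc E.K) h / algebraMap E.K[X] (RatFunc E.K) c.denom, ?_⟩
  have h8 : (s * dn) ^ 2 = E.cst d * (E.κ (algebraMap E.K[X] (RatFunc E.K) h)) ^ 2 := by
    rw [sq, hsP, hh, map_mul, map_mul, map_pow, map_pow, RatFunc.algebraMap_C]
    rfl
  rw [map_div₀, ← hdn, div_pow, mul_div_assoc', ← h8, mul_pow]
  field_simp

end level

end Pool.Agent.R425.CC
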