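import Pool.Agent.R425.CC.Vals

/-!
# Sections of curves over a constant elliptic curve
-/

set_option autoImplicit false
set_option linter.all false

open Polynomial IsDedekindDomain NumberField WeierstrassCurve

namespace Pool.Agent.R425.CC

open Pool.Agent.TH942 Pool.Agent.TH954 Pool.Agent.Y791.BS Pool.Agent.Y791.BF
  Pool.Agent.Y791.BC Pool.Agent.Y791.BC.Leg Pool.Agent.H918R3
  Pool.Agent.H918R3.TB1

open scoped Classical

theorem const_main (hT : S_TypesL) (hEmb : S_EmbFG) (hObs : S_ObsFG) (hDesc : S_Desc)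
    (hEmbP : S_EmbP) (hConj : S_ConjA)
    {k : Type} [Field k] [CharZero k] (hk : Algebra.EssFiniteType ℚ k)
    {F Ω B : Type} [Field F] [Field Ω] [Field B] [Algebra k F] [Algebra F Ω]
    [Algebra k Ω] [Algebra k B] [IsScalarTower k F Ω]
    [IsAlgClosure F Ω] [IsAlgClosure k B]
    (hF : ∃ t : F, Transcendental k t ∧
      Algebra.IsAlgebraic (IntermediateField.adjoin k {t}) F)
    (k' : IntermediateField k Ω) [FiniteDimensional k k']
    (K : Type) [Field K] [CharZero K] (hK : Algebra.EssFiniteType ℚ K)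
    (ψ : RatFunc K →+* Ω) (hψ : ψ.fieldRange = k'.toSubfield)
    {a b : K} (hD : 4 * a ^ 3 + 27 * b ^ 2 ≠ 0) {m : ℕ}
    (hm : 1 ≤ m) (hsel : SelKilledL K 2 a b m)
    (x y : Ω) (hx : x ∈ IntermediateField.adjoin F (k' : Set Ω))
    (hy : y ∈ IntermediateField.adjoin F (k' : Set Ω)) (hxt : Transcendental k x)
    (hxy : y ^ 2 = x ^ 3 + ψ (algebraMap K (RatFunc K) a) * x +
      ψ (algebraMap K (RatFunc K) b))
    (s : GalSection k F Ω B)
    (hloc : ∀ i : PlF k, s.GeometricOver i.Lv (AlgebraicClosure i.Lv)) :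
    ∃! O : ValuationSubring F, s.ArisesFrom O := by
  have hΩ1 : IsAlgClosed Ω := IsAlgClosure.isAlgClosed F
  have hΩ2 : Algebra.IsAlgebraic F Ω := IsAlgClosure.isAlgebraic
  have hcF : CharZero F := charZero_of_injective_algebraMap (algebraMap k F).injective
  have hcΩ : CharZero Ω := charZero_of_injective_algebraMap (algebraMap F Ω).injective
  have hcR : CharZero (RatFunc K) :=
    charZero_of_injective_algebraMap (algebraMap K (RatFunc K)).injective
  set A := toSAct s with hA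
  choose pl hpl using fun i : PlF k => toSAct_geo s (hloc i)
  obtain ⟨κ1, m1, α1, hκ1, hα1, hκι⟩ := exists_lvl2 A.j k' ψ hψ
  let instR : Algebra (RatFunc K) Ω := ((A.j : AlgebraicClosure k →+* Ω).comp κ1).toAlgebra
  let instK : Algebra K Ω := ((algebraMap (RatFunc K) Ω).comp (algebraMap K (RatFunc K))).toAlgebra
  have instT : IsScalarTower K (RatFunc K) Ω := IsScalarTower.of_algebraMap_eq (fun c => rfl)
  have hM : ∀ c : RatFunc K, algebraMap (RatFunc K) Ω c = A.j (κ1 c) := fun c => rfl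
  have hMι : ∀ c : RatFunc K, algebraMap (RatFunc K) Ω c = ψ c := fun c => by rw [hM, hκι]
  obtain ⟨A1, g, hg, hj, h1, h2⟩ := exists_base A m1 κ1 hκ1 hM
  choose pl1 hpl1 using exists_places A pl hpl m1 κ1 hκ1 hM A1 g hj h1
  -- the fixed elements
  let σ : (AlgebraicClosure k ≃ₐ[k] AlgebraicClosure k) → (Ω ≃ₐ[F] Ω) := fun τ =>
    s.s ((eqv k B).autCongr τ)
  have hσ : ∀ τ z, A.s τ z = σ τ z := fun τ z => rfl
  have hfixed : ∀ z ∈ IntermediateField.adjoin F (k' : Set Ω), z ∈ A1.fix := by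
    intro z hz τ1
    obtain ⟨τ, e1, e2⟩ := h1 τ1
    have hτ : ∀ c, τ (κ1 c) = κ1 c := by
      intro c
      rw [← hg, ← e1, τ1.commutes]
    rw [e2, hσ]
    refine fix_adjoin (σ τ) (fun w hw => ?_) hz
    obtain ⟨r, rfl⟩ : ∃ r, A.j (κ1 r) = w := by
      have h1 : w ∈ ψ.fieldRange := by
        rw [hψ]
        exact hw
      obtain ⟨r, hr⟩ := h1
      exact ⟨r, by rw [hκι, hr]⟩
    rw [← hσ, A.hj]
    congr 1
    exact hτ r
  have hxy1 : y ^ 2 = x ^ 3 + algebraMap K Ω a * x + algebraMap K Ω b := by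
    have e1 : ∀ c : K, algebraMap K Ω c = ψ (algebraMap K (RatFunc K) c) := fun c => hMι _
    rw [e1, e1]
    exact hxy
  have hxc : ∀ w : AlgebraicClosure (RatFunc K), x ≠ A1.j w := by
    intro w hw
    apply hxt
    rw [hw, hj]
    exact (Algebra.IsAlgebraic.isAlgebraic (R := k) (g w)).algHom A.j
  have hxt1 : Transcendental (RatFunc K) x := by
    intro h
    obtain ⟨w, hw⟩ := alg_range A1.j h
    exact hxc w hw.symm
  have hvals := fun i hi c hc => alg_valsC hT hK hD hm hsel A1 pl1 hpl1 (hfixed x hx)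
    (hfixed y hy) hxt1 hxy1 i hi c hc
  -- the level
  obtain ⟨k'', hfin'', hk''⟩ := exists_ext (R := RatFunc K) (m1 : k → RatFunc K)
    (fun c => by rw [hM, hκ1, A.j.commutes]) k' (fun r => by
      rw [hMι]
      have h3 : ψ r ∈ ψ.fieldRange := ⟨r, rfl⟩
      rw [hψ] at h3
      exact h3)
  obtain ⟨κ, μ, α, hκ, hα, hκψ⟩ := exists_lvl2 A1.j k'' ψ (hψ.trans hk''.symm)
  let E : Lvl (RatFunc K) :=
    { K := K
      ess := hK
      κ := κ
      m := μ
      hκ := hκ
      α := α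
      hα := hα }
  have hdim : ∀ x : Ω, (∀ w : AlgebraicClosure k, x ≠ A.j w) →
      ∀ t : Ω, IsAlgebraic (Algebra.adjoin k {x}) t := by
    intro x hx t
    refine (alg_adjoin_of_dim hF x (fun h => ?_)).isAlgebraic _
    obtain ⟨w, hw⟩ := alg_range A.j h
    exact hx w hw.symm
  have hdim1 : ∀ z : Ω, (∀ w : AlgebraicClosure (RatFunc K), z ≠ A1.j w) →
      ∀ t : Ω, IsAlgebraic (Algebra.adjoin (RatFunc K) {z}) t := by
    intro z hz t
    refine isAlgebraic_adjoin_of m1 (fun c => ?_) (hdim z (fun w hw => hz (g.symm w) ?_) t)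
    · rw [hM, hκ1, A.j.commutes]
    · rw [hw, hj, g.apply_symm_apply]
  obtain ⟨W, hW⟩ := alg_good A1 pl1 hpl1 hdim1 hEmbP hConj hObs Nat.prime_two E
    (fun τ => hfixed x hx τ) hxc hvals
  exact geometric_of_good hEmb hDesc hk s W (goodW_base A κ1 hα1 A1 g hj h2 hW)

end Pool.Agent.R425.CC
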