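import Pool.Agent.Y791.BC.SelL
import Pool.Agent.R425.D.SecT

/-!
# The Selmer groups over number fields
-/

set_option autoImplicit false
set_option linter.all false

open Polynomial IsDedekindDomain NumberField WeierstrassCurve

namespace Pool.Agent.R425.CC

open Pool.Agent.TH942 Pool.Agent.TH954 Pool.Agent.Y791.BF Pool.Agent.Y791.BC Pool.Agent.R425.D
open Pool.Agent.Y702.G (base pts)

open scoped Classical

lemma triv_two {K : Type} [Field K] {E : WeierstrassCurve K}
    {ξ : (AlgebraicClosure K ≃ₐ[K] AlgebraicClosure K) → AlgPt E K} {L : Type} [Field L]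
    [Algebra K L] (h : TrivialOver E ξ L) : TrivialOver E (fun σ => 2 • ξ σ) L := by
  obtain ⟨ι, Q, hQ⟩ := h
  refine ⟨ι, 2 • Q, fun σ τ hστ => ?_⟩
  change pm E ι (2 • ξ τ) = _
  rw [map_nsmul, hQ σ τ hστ, act_nsmul, ns_sub]

theorem selKilled_of_good {K : Type} [Field K] [NumberField K] {a b : K}
    (hG : Good (sw a b)) : SelKilledL K 2 a b 2 := by
  intro n ξ hξ hξN hloc
  have hco2 : IsCocycle (sw a b) (fun σ => 2 • ξ σ) := by
    refine ⟨fun σ τ => ?_, ?_⟩
    · change 2 • ξ (σ * τ) = 2 • ξ σ + act (sw a b) σ (2 • ξ τ)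
      rw [hξ.1 σ τ, ns_add, act_nsmul]
    · obtain ⟨F, hF, h⟩ := hξ.2
      exact ⟨F, hF, fun σ τ hστ => by
        change 2 • ξ σ = 2 • ξ τ
        rw [h σ τ hστ]⟩
  obtain ⟨T, hT1, hT2⟩ := cocycle_trivial hG.sha hG.fin hG.tor n
    (fun σ => 2 • ξ σ) hco2 (fun σ => by
      change 2 ^ n • (2 • ξ σ) = 0
      have e0 : 2 ^ n • (2 • ξ σ) = 2 • (2 ^ n • ξ σ) := by
        rw [← ns_mul, ← ns_mul, mul_comm]
      rw [e0, hξN σ, two_nsmul, add_zero]) (fun v => by
      have h := hloc ⟨K, v, algebraMap K (v.adicCompletion K)⟩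
      have hi : (algebraMap K (v.adicCompletion K)).toAlgebra =
          (inferInstance : Algebra K (v.adicCompletion K)) :=
        Algebra.algebra_ext _ _ (fun _ => rfl)
      have h' : @TrivialOver K _ (sw a b) ξ (v.adicCompletion K) _
        ((algebraMap K (v.adicCompletion K)).toAlgebra) := h
      rw [hi] at h'
      exact triv_two h') (fun w =>
      trivial_two hξ.1 w.Completion (twoGal_inf w))
  exact ⟨T, hT1, hT2⟩

end Pool.Agent.R425.CC
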