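import Pool.Agent.R425.CC.Half
import Pool.Agent.Y791.BF.Types

/-!
# Points which are divisible by powers of two over fields of rational functions
-/

set_option autoImplicit false
set_option linter.all false

open Polynomial IsDedekindDomain NumberField WeierstrassCurve

namespace Pool.Agent.R425.CC

open Pool.Agent.TH942 Pool.Agent.TH954 Pool.Agent.Y791.BS Pool.Agent.Y791.BF
  Pool.Agent.Y791.BC Pool.Agent.Y791.BC.Desc2T Pool.Agent.H918R3
  Pool.Agent.H918R3.TB1 Pool.Agent.Y65.D2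

open scoped Classical

section

variable {K : Type} [Field K] [CharZero K] {M : Type} [Field M] [CharZero M] [IsAlgClosed M]
  [Algebra (RatFunc K) M] [Algebra K M] [IsScalarTower K (RatFunc K) M]

/-- the action on points of a curve over the constants -/
noncomputable def ap (A : SAct (RatFunc K) M) (E : WeierstrassCurve K)
    (τ : Kb K ≃ₐ[RatFunc K] Kb K) :
    (E.baseChange M).toAffine.Point →+ (E.baseChange M).toAffine.Point :=
  pm E ((((A.s τ : M ≃ₐ[RatFunc K] M) : M →ₐ[RatFunc K] M)).restrictScalars K)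

/-- levels with constants in the algebraic closure of `K` -/
def Inv (e : AlgebraicClosure K →ₐ[K] Kb K) (z1 z2 z3 : AlgebraicClosure K)
    (E : Lvl (RatFunc K)) : Prop :=
  E.S = algebraMap (RatFunc K) (Kb K) RatFunc.X ∧ (∀ w, E.IsCst w → ∃ z, e z = w) ∧
    (∃ θ, E.cst θ = e z1) ∧ (∃ θ, E.cst θ = e z2) ∧ (∃ θ, E.cst θ = e z3)

/-- points fixed over a level -/
def Fx (A : SAct (RatFunc K) M) (E0 : WeierstrassCurve K) (E : Lvl (RatFunc K))
    (P : (E0.baseChange M).toAffine.Point) : Prop :=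
  ∀ τ : Kb K ≃ₐ[RatFunc K] Kb K, (∀ c, τ (E.κ c) = E.κ c) → ap A E0 τ P = P

lemma ap_fix_iff (A : SAct (RatFunc K) M) (E0 : WeierstrassCurve K)
    (τ : Kb K ≃ₐ[RatFunc K] Kb K) {x y : M} (h : (E0.baseChange M).toAffine.Nonsingular x y)
    (hf : ap A E0 τ (.some x y h) = .some x y h) : A.s τ x = x ∧ A.s τ y = y := by
  obtain ⟨h', e'⟩ := pm_some (E := E0)
    ((((A.s τ : M ≃ₐ[RatFunc K] M) : M →ₐ[RatFunc K] M)).restrictScalars K) h
  unfold ap at hf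
  rw [e', Affine.Point.some.injEq] at hf
  exact hf

theorem tower_step (hT : S_TypesL) (A : SAct (RatFunc K) M)
    (pl : ∀ i : PlF (RatFunc K), Plc (RatFunc K) M (AlgebraicClosure i.Lv))
    (hpl : ∀ i, GeoPlc A (pl i)) [CharZero (RatFunc K)]
    (e : AlgebraicClosure K →ₐ[K] Kb K) {z1 z2 z3 : AlgebraicClosure K} {E0 : WeierstrassCurve K}
    (h12 : z1 ≠ z2) (h13 : z1 ≠ z3) (h23 : z2 ≠ z3)
    (hW : crv (A.j (e z1)) (A.j (e z2)) (A.j (e z3)) = E0.baseChange M)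
    {E : Lvl (RatFunc K)} (hE : Inv e z1 z2 z3 E) {P : (E0.baseChange M).toAffine.Point}
    (hP : Fx A E0 E P) (hP0 : 2 • P ≠ 0) :
    ∃ (E' : Lvl (RatFunc K)) (Q : (E0.baseChange M).toAffine.Point),
      Inv e z1 z2 z3 E' ∧ Fx A E0 E' Q ∧ 2 • Q = P := by
  obtain ⟨hS, hC, ⟨θ1, hθ1⟩, ⟨θ2, hθ2⟩, ⟨θ3, hθ3⟩⟩ := hE
  have hinj : Function.Injective (fun z : AlgebraicClosure K => A.j (e z)) :=
    (RingHom.injective (A.j : Kb K →+* M)).comp
      (RingHom.injective (e : AlgebraicClosure K →+* Kb K))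
  have g12 : A.j (e z1) ≠ A.j (e z2) := fun h => h12 (hinj h)
  have g13 : A.j (e z1) ≠ A.j (e z3) := fun h => h13 (hinj h)
  have g23 : A.j (e z2) ≠ A.j (e z3) := fun h => h23 (hinj h)
  rcases P with _ | ⟨x, y, h⟩
  · exact absurd (smul_zero 2) hP0
  have hfx : E.Fixed A x := fun τ hτ => (ap_fix_iff A E0 τ h (hP τ hτ)).1
  have hfy : E.Fixed A y := fun τ hτ => (ap_fix_iff A E0 τ h (hP τ hτ)).2
  have hxy := eqn_sw hW h
  have hne : (x - A.j (e z1)) * (x - A.j (e z2)) * (x - A.j (e z3)) ≠ 0 :=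
    fun h0 => hP0 (two_tors hW h h0)
  have t12 : θ1 ≠ θ2 := by
    rintro rfl
    exact g12 (by rw [← hθ1, ← hθ2])
  have t13 : θ1 ≠ θ3 := by
    rintro rfl
    exact g13 (by rw [← hθ1, ← hθ3])
  have t23 : θ2 ≠ θ3 := by
    rintro rfl
    exact g23 (by rw [← hθ2, ← hθ3])
  have hcard : ({θ1, θ2, θ3} : Finset E.K).card = 3 := Finset.card_eq_three.2
    ⟨θ1, θ2, θ3, t12, t13, t23, rfl⟩
  have hx1 : x ≠ A.j (e z1) := by
    rintro h0
    exact hne (by rw [← h0, sub_self, zero_mul, zero_mul])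
  have hx2 : x ≠ A.j (e z2) := by
    rintro h0
    exact hne (by rw [← h0, sub_self, mul_zero, zero_mul])
  have hx3 : x ≠ A.j (e z3) := by
    rintro h0
    exact hne (by rw [← h0, sub_self, mul_zero])
  have key := hT (RatFunc K) M A pl hpl E 2 Nat.prime_two {θ1, θ2, θ3} 1 one_ne_zero
    (by rw [hcard]; norm_num) x y hfx hfy (by
      intro θ hθ
      simp only [Finset.mem_insert, Finset.mem_singleton] at hθ
      rcases hθ with rfl | rfl | rfl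
      · rw [hθ1]; exact hx1
      · rw [hθ2]; exact hx2
      · rw [hθ3]; exact hx3) (by
      rw [Finset.prod_insert (by simp [t12, t13]), Finset.prod_insert (by simp [t23]),
        Finset.prod_singleton, hθ1, hθ2, hθ3, map_one, map_one, one_mul, hxy, mul_assoc])
  obtain ⟨d1, g1, hd1, hg1, e1⟩ := key θ1 (by simp)
  obtain ⟨d2, g2, hd2, hg2, e2⟩ := key θ2 (by simp)
  rw [hθ1] at e1
  rw [hθ2] at e2
  have hp1 : (X ^ 2 - C d1 : E.K[X]) ≠ 0 := X_pow_sub_C_ne_zero two_pos d1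
  have hp2 : (X ^ 2 - C d2 : E.K[X]) ≠ 0 := X_pow_sub_C_ne_zero two_pos d2
  obtain ⟨E', j, hcst, hS', hsp, hc1, hc2, hfix⟩ := Level.ext (RatFunc K) E
    ((X ^ 2 - C d1) * (X ^ 2 - C d2)) (mul_ne_zero hp1 hp2)
  have hroot : ∀ d : E.K, (X ^ 2 - C d : E.K[X]) ∣ (X ^ 2 - C d1) * (X ^ 2 - C d2) →
      ∃ δ : E'.K, δ ^ 2 = j d := by
    intro d hd
    have h1 : ((X ^ 2 - C d : E.K[X]).map j).Splits := by
      refine Splits.of_dvd hsp ?_ (Polynomial.map_dvd j hd)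
      exact (Polynomial.map_ne_zero_iff j.injective).2 (mul_ne_zero hp1 hp2)
    have h2 : ((X ^ 2 - C d : E.K[X]).map j) = X ^ 2 - C (j d) := by
      rw [Polynomial.map_sub, Polynomial.map_pow, map_X, map_C]
    rw [h2] at h1
    obtain ⟨δ, hδ⟩ := Splits.exists_eval_eq_zero h1 (by
      rw [degree_X_pow_sub_C two_pos]
      norm_num)
    refine ⟨δ, ?_⟩
    rw [eval_sub, eval_pow, eval_X, eval_C] at hδ
    exact sub_eq_zero.1 hδ
  obtain ⟨δ1, hδ1⟩ := hroot d1 (dvd_mul_right _ _)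
  obtain ⟨δ2, hδ2⟩ := hroot d2 (dvd_mul_left _ _)
  have sq1 : x - A.j (e z1) = (A.j (E'.cst δ1) * g1) ^ 2 := by
    rw [e1, mul_pow, ← map_pow, ← map_pow, hδ1, hcst]
  have sq2 : x - A.j (e z2) = (A.j (E'.cst δ2) * g2) ^ 2 := by
    rw [e2, mul_pow, ← map_pow, ← map_pow, hδ2, hcst]
  obtain ⟨Q, hQ⟩ := Leg.half_W (two_ne_zero : (2 : M) ≠ 0) g12 g13 g23 _ hW.symm
    (Affine.Point.some x y h) 0 (by
      rw [dlW_some, if_neg hx1]
      change IsSquare ((x - A.j (e z1)) * 1)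
      rw [mul_one, sq1]
      exact ⟨_, sq _⟩) (by
      rw [dlW_some, if_neg hx2]
      change IsSquare ((x - A.j (e z2)) * 1)
      rw [mul_one, sq2]
      exact ⟨_, sq _⟩)
  rw [add_zero] at hQ
  have hcm : ∀ z : AlgebraicClosure K, (∃ θ, E.cst θ = e z) → ∃ θ, E'.cst θ = e z := by
    rintro z ⟨θ, hθ⟩
    exact ⟨j θ, by rw [hcst, hθ]⟩
  have hQQ : Q + Q = Affine.Point.some x y h := by rw [← two_nsmul, hQ]
  have hjfix : ∀ τ : Kb K ≃ₐ[RatFunc K] Kb K, (∀ c, τ (E'.κ c) = E'.κ c) → ∀ δ : E'.K,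
      A.s τ (A.j (E'.cst δ)) = A.j (E'.cst δ) := by
    intro τ hτ δ
    rw [A.hj]
    congr 1
    exact hτ _
  refine ⟨E', Q, ⟨hS'.trans hS, fun w hw => hC w (hc1 w hw), hcm _ ⟨θ1, hθ1⟩, hcm _ ⟨θ2, hθ2⟩,
    hcm _ ⟨θ3, hθ3⟩⟩, fun τ hτ => ?_, hQ.symm⟩
  have hz : ∀ z : AlgebraicClosure K, (∃ θ, E.cst θ = e z) → A.s τ (A.j (e z)) = A.j (e z) := by
    intro z hz
    obtain ⟨θ, hθ⟩ := hcm z hz
    rw [← hθ]
    exact hjfix τ hτ θ
  refine half_fixed (E := E0) hW g12 g13 g23 _ (hz _ ⟨θ1, hθ1⟩) (hz _ ⟨θ2, hθ2⟩) (hz _ ⟨θ3, hθ3⟩)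
    (r1 := A.j (E'.cst δ1) * g1) (r2 := A.j (E'.cst δ2) * g2) ?_ ?_ Q ?_ ?_ ?_ ?_
  · change A.s τ _ = _
    rw [map_mul, hjfix τ hτ, hg1 τ (hfix τ hτ)]
  · change A.s τ _ = _
    rw [map_mul, hjfix τ hτ, hg2 τ (hfix τ hτ)]
  · rw [hQQ]
    exact Affine.Point.some_ne_zero _
  · rw [hQQ]
    exact hP τ (hfix τ hτ)
  · rw [hQQ, dlW_some, if_neg hx1, sq1]
  · rw [hQQ, dlW_some, if_neg hx2, sq2]

/-- the tower -/
theorem tower (hT : S_TypesL) (A : SAct (RatFunc K) M)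
    (pl : ∀ i : PlF (RatFunc K), Plc (RatFunc K) M (AlgebraicClosure i.Lv))
    (hpl : ∀ i, GeoPlc A (pl i)) [CharZero (RatFunc K)]
    (e : AlgebraicClosure K →ₐ[K] Kb K) {z1 z2 z3 : AlgebraicClosure K} {E0 : WeierstrassCurve K}
    (h12 : z1 ≠ z2) (h13 : z1 ≠ z3) (h23 : z2 ≠ z3)
    (hW : crv (A.j (e z1)) (A.j (e z2)) (A.j (e z3)) = E0.baseChange M)
    {E : Lvl (RatFunc K)} (hE : Inv e z1 z2 z3 E) {P : (E0.baseChange M).toAffine.Point}
    (hP : Fx A E0 E P) (hP0 : ∀ N : ℕ, 1 ≤ N → N • P ≠ 0) (n : ℕ) :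
    ∃ (E' : Lvl (RatFunc K)) (Q : (E0.baseChange M).toAffine.Point),
      Inv e z1 z2 z3 E' ∧ Fx A E0 E' Q ∧ (2 ^ n) • Q = P := by
  induction n with
  | zero => exact ⟨E, P, hE, hP, by rw [pow_zero, one_nsmul]⟩
  | succ n ih =>
    obtain ⟨E1, Q1, hE1, hQ1, h1⟩ := ih
    obtain ⟨E2, Q2, hE2, hQ2, h2⟩ := tower_step hT A pl hpl e h12 h13 h23 hW hE1 hQ1 (by
      intro h0
      apply hP0 2 (by norm_num)
      rw [← h1, ← mul_nsmul', mul_comm, mul_nsmul', h0, nsmul_zero])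
    exact ⟨E2, Q2, hE2, hQ2, by rw [pow_succ, mul_nsmul', h2, h1]⟩

end

end Pool.Agent.R425.CC
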