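import Pool.Agent.R425.CC.Trans

/-!
# Selmer groups of constant curves over the field of rational functions
-/

set_option autoImplicit false
set_option linter.all false

open Polynomial IsDedekindDomain NumberField WeierstrassCurve

namespace Pool.Agent.R425.CC

open Pool.Agent.TH942 Pool.Agent.TH954 Pool.Agent.Y791.BS Pool.Agent.Y791.BF
  Pool.Agent.Y791.BC Pool.Agent.Y791.BC.Desc2T Pool.Agent.H918R3
  Pool.Agent.H918R3.TB1 Pool.Agent.Y65.D2

open scoped Classical

section tr

/-- points of equal curves -/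
noncomputable def tr {M : Type} [Field M] {W W' : WeierstrassCurve M} (h : W = W') :
    W.toAffine.Point ≃+ W'.toAffine.Point := by
  subst h
  exact AddEquiv.refl _

lemma tr_some {M : Type} [Field M] {W W' : WeierstrassCurve M} (h : W = W') {x y : M}
    (hn : W.toAffine.Nonsingular x y) (hn' : W'.toAffine.Nonsingular x y) :
    tr h (.some x y hn) = .some x y hn' := by
  subst h
  rfl

lemma tr_tr {M : Type} [Field M] {W W' : WeierstrassCurve M} (h : W = W') (h' : W' = W)
    (P : W.toAffine.Point) : tr h' (tr h P) = P := by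
  subst h
  rfl

variable {K : Type} [Field K] {a b : K}

lemma sw_bc (M : Type) [Field M] [Algebra K M] [Algebra (RatFunc K) M]
    [IsScalarTower K (RatFunc K) M] :
    (sw a b).baseChange M = (sw (cc a : RatFunc K) (cc b)).baseChange M := by
  have hk : ∀ c : K, algebraMap K M c = algebraMap (RatFunc K) M (cc c) := fun c =>
    IsScalarTower.algebraMap_apply K (RatFunc K) M c
  ext
  · change algebraMap K M 0 = algebraMap (RatFunc K) M 0
    rw [map_zero, map_zero]
  · change algebraMap K M 0 = algebraMap (RatFunc K) M 0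
    rw [map_zero, map_zero]
  · change algebraMap K M 0 = algebraMap (RatFunc K) M 0
    rw [map_zero, map_zero]
  · exact hk a
  · exact hk b

/-- the points of a constant curve -/
noncomputable def trM (a b : K) (M : Type) [Field M] [Algebra K M] [Algebra (RatFunc K) M]
    [IsScalarTower K (RatFunc K) M] :
    ((sw a b).baseChange M).toAffine.Point ≃+
      ((sw (cc a : RatFunc K) (cc b)).baseChange M).toAffine.Point := tr (sw_bc M)

lemma trM_pm {M M' : Type} [Field M] [Algebra K M] [Algebra (RatFunc K) M]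
    [IsScalarTower K (RatFunc K) M] [Field M'] [Algebra K M'] [Algebra (RatFunc K) M']
    [IsScalarTower K (RatFunc K) M'] (f : M →ₐ[RatFunc K] M') (g : M →ₐ[K] M')
    (hfg : ∀ x, f x = g x) (P : ((sw a b).baseChange M).toAffine.Point) :
    pm (sw (cc a : RatFunc K) (cc b)) f (trM a b M P) = trM a b M' (pm (sw a b) g P) := by
  rcases P with _ | ⟨x, y, h⟩
  · change pm _ f (trM a b M 0) = trM a b M' (pm (sw a b) g 0)
    rw [map_zero, map_zero, map_zero, map_zero]
  · have h1 : ((sw (cc a : RatFunc K) (cc b)).baseChange M).toAffine.Nonsingular x y := by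
      rw [← sw_bc M]
      exact h
    have e1 : trM a b M (.some x y h) = .some x y h1 := tr_some _ h h1
    obtain ⟨h2, e2⟩ := pm_some (E := sw (cc a : RatFunc K) (cc b)) f h1
    obtain ⟨h3, e3⟩ := pm_some (E := sw a b) g h
    have h4 : ((sw (cc a : RatFunc K) (cc b)).baseChange M').toAffine.Nonsingular (g x) (g y) := by
      rw [← sw_bc M']
      exact h3
    have e4 : trM a b M' (.some (g x) (g y) h3) = .some (g x) (g y) h4 := tr_some _ h3 h4
    rw [e1, e2, e3, e4, Affine.Point.some.injEq]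
    exact ⟨hfg x, hfg y⟩

end tr

section

variable {K : Type} [Field K] [CharZero K] {a b : K}

/-- the embedding of the points over the constants -/
noncomputable def px (a b : K) (e : AlgebraicClosure K →ₐ[K] Kb K) :
    AlgPt (sw a b) K →+ AlgPt (sw (cc a : RatFunc K) (cc b)) (RatFunc K) :=
  (trM a b (Kb K)).toAddMonoidHom.comp (pm (sw a b) e)

lemma px_inj (e : AlgebraicClosure K →ₐ[K] Kb K) : Function.Injective (px a b e) :=
  (trM a b (Kb K)).injective.comp (pm_injective (E := sw a b) e)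

lemma px_act (e : AlgebraicClosure K →ₐ[K] Kb K) {τ : Kb K ≃ₐ[RatFunc K] Kb K}
    {τ0 : AlgebraicClosure K ≃ₐ[K] AlgebraicClosure K} (h : ∀ z, τ (e z) = e (τ0 z))
    (T : AlgPt (sw a b) K) :
    act (sw (cc a : RatFunc K) (cc b)) τ (px a b e T) = px a b e (act (sw a b) τ0 T) := by
  change pm _ ((τ : Kb K →ₐ[RatFunc K] Kb K).restrictScalars (RatFunc K))
    (trM a b (Kb K) (pm (sw a b) e T)) = trM a b (Kb K) (pm (sw a b) e (pm (sw a b) _ T))
  rw [trM_pm _ ((τ : Kb K →ₐ[RatFunc K] Kb K).restrictScalars K) (fun x => rfl), pm_pm, pm_pm]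
  congr 3
  apply AlgHom.ext
  intro x
  exact h x

theorem sel_transfer (hEmb : S_EmbFG) (hess : Algebra.EssFiniteType ℚ K)
    (hD : 4 * a ^ 3 + 27 * b ^ 2 ≠ 0) {m : ℕ} (hsel : SelKilledL K 2 a b m) :
    SelKilledL (RatFunc K) 2 (cc a) (cc b) m := by
  have hcR : CharZero (RatFunc K) :=
    charZero_of_injective_algebraMap (algebraMap K (RatFunc K)).injective
  have hcM : CharZero (Kb K) :=
    charZero_of_injective_algebraMap (algebraMap (RatFunc K) (Kb K)).injective
  have hch : CharZero (AlgebraicClosure K) :=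
    charZero_of_injective_algebraMap (algebraMap K (AlgebraicClosure K)).injective
  intro n ξ hξc hξn hξloc
  obtain ⟨z1, z2, z3, hs, ha, hb, h12, h13, h23⟩ := exists_roots hD
  let e : AlgebraicClosure K →ₐ[K] Kb K := IsAlgClosed.lift
  have hC : ∀ (M : Type) [Field M] [Algebra (RatFunc K) M] (f : Kb K →ₐ[RatFunc K] M),
      crv (f (e z1)) (f (e z2)) (f (e z3)) = (sw (cc a : RatFunc K) (cc b)).baseChange M := by
    intro M _ _ f
    have hk : ∀ c : K, algebraMap (RatFunc K) M (cc c) = f (e (algebraMap K _ c)) := by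
      intro c
      rw [e.commutes, ← f.commutes]
      congr 1
    ext
    · change (0 : M) = algebraMap (RatFunc K) M 0
      rw [map_zero]
    · change -(f (e z1) + f (e z2) + f (e z3)) = algebraMap (RatFunc K) M 0
      rw [map_zero, ← map_add, ← map_add, ← map_add, ← map_add, hs, map_zero, map_zero, neg_zero]
    · change (0 : M) = algebraMap (RatFunc K) M 0
      rw [map_zero]
    · change f (e z1) * f (e z2) + f (e z1) * f (e z3) + f (e z2) * f (e z3) =
        algebraMap (RatFunc K) M (cc a)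
      rw [hk, ha]
      simp only [map_add, map_mul]
    · change -(f (e z1) * f (e z2) * f (e z3)) = algebraMap (RatFunc K) M (cc b)
      rw [hk, hb]
      simp only [map_neg, map_mul]
  obtain ⟨E1, hE1⟩ := exists_first hess e hs ha hb
  obtain ⟨E, hE, hEξ⟩ := transfer_tower hEmb e h12 h13 h23 hC hξc hξloc n hE1
    (fun σ _ => hξn σ)
  obtain ⟨Z, hZ⟩ := fix_kappa e hE
  have hcongr : ∀ τ τ' : Kb K ≃ₐ[RatFunc K] Kb K, (∀ z ∈ Z, τ (e z) = τ' (e z)) → ξ τ = ξ τ' := by
    intro τ τ' h
    have h4 : ξ (τ'⁻¹ * τ) = 0 := by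
      apply hEξ
      apply hZ
      intro z hz
      change τ'.symm (τ (e z)) = e z
      rw [h z hz, τ'.symm_apply_apply]
    have h5 := hξc.1 τ' (τ'⁻¹ * τ)
    rw [h4, show τ' * (τ'⁻¹ * τ) = τ by group] at h5
    rw [h5]
    have h6 : act (sw (cc a : RatFunc K) (cc b)) τ' 0 = 0 := map_zero _
    rw [h6, add_zero]
  have htor : ∀ T : AlgPt (sw (cc a : RatFunc K) (cc b)) (RatFunc K), (2 ^ n) • T = 0 →
      ∃ T0, px a b e T0 = T := by
    intro T hT
    obtain ⟨T0, hT0⟩ := torsion_mem hD e (2 ^ n) Nat.one_le_two_pow ((trM a b (Kb K)).symm T) (by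
      rw [← map_nsmul, hT, map_zero])
    refine ⟨T0, ?_⟩
    change trM a b (Kb K) (pm (sw a b) e T0) = T
    rw [hT0, AddEquiv.apply_symm_apply]
  choose Lf hLf using exists_liftT e
  choose ξ0 hξ0 using fun τ0 => htor _ (hξn (Lf τ0))
  have hgen : ∀ (τ : Kb K ≃ₐ[RatFunc K] Kb K) (τ0 : AlgebraicClosure K ≃ₐ[K] AlgebraicClosure K),
        (∀ z, τ (e z) = e (τ0 z)) → px a b e (ξ0 τ0) = ξ τ := by
    intro τ τ0 h
    rw [hξ0, hcongr (Lf τ0) τ (fun z _ => (hLf τ0 z).trans (h z).symm)]
  have hinj := px_inj (a := a) (b := b) e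
  have hcoc : IsCocycle (sw a b) ξ0 := by
    constructor
    · intro σ τ
      apply hinj
      rw [map_add, hgen (Lf σ * Lf τ) (σ * τ) (fun z => by
        change Lf σ (Lf τ (e z)) = e (σ (τ z))
        rw [hLf, hLf]), ← px_act e (hLf σ), hξ0 σ, hξ0 τ]
      try exact hξc.1 _ _
    · refine ⟨IntermediateField.adjoin K (Z : Set (AlgebraicClosure K)), ?_, fun σ τ hστ => ?_⟩
      · have := Z.finite_toSet.to_subtype
        exact IntermediateField.finiteDimensional_adjoin
          (fun x _ => (Algebra.IsAlgebraic.isAlgebraic x).isIntegral)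
      · apply hinj
        rw [hξ0, hξ0, hcongr (Lf σ) (Lf τ) (fun z hz => by
          rw [hLf, hLf, hστ z (IntermediateField.subset_adjoin K _ hz)])]
  have hN0 : ∀ σ, (2 ^ n) • ξ0 σ = 0 := by
    intro σ
    apply hinj
    rw [map_nsmul, hξ0, hξn, map_zero]
  have hloc0 : ∀ i : PlF K, TrivialOver (sw a b) ξ0 i.Lv := by
    intro i
    have hchi : CharZero i.Lv := charZero_compl i.v
    obtain ⟨t, ht, -⟩ := exists_transcendental' i one_pos
    obtain ⟨ι, Q, hQ⟩ := hξloc (Leg.plT i ht)
    let inst1 : Algebra (RatFunc K) i.Lv := (embF ht : RatFunc K →+* i.Lv).toAlgebra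
    have inst2 : IsScalarTower K (RatFunc K) i.Lv :=
      IsScalarTower.of_algebraMap_eq (fun c => ((embF ht).commutes c).symm)
    have inst3 : IsScalarTower K (RatFunc K) (AlgebraicClosure i.Lv) :=
      IsScalarTower.of_algebraMap_eq (fun c => by
        change algebraMap i.Lv (AlgebraicClosure i.Lv) (algebraMap K i.Lv c) =
          algebraMap i.Lv (AlgebraicClosure i.Lv) (algebraMap (RatFunc K) i.Lv
            (algebraMap K (RatFunc K) c))
        congr 1
        exact ((embF ht).commutes c).symm)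
    let ι' : Kb K →ₐ[RatFunc K] AlgebraicClosure i.Lv := ι
    let Q' : AlgPt (sw (cc a : RatFunc K) (cc b)) i.Lv := Q
    have hQ' : ∀ (σ : AlgebraicClosure i.Lv ≃ₐ[i.Lv] AlgebraicClosure i.Lv)
        (τ : Kb K ≃ₐ[RatFunc K] Kb K), Compat (L := i.Lv) ι' σ τ →
        pm (sw (cc a : RatFunc K) (cc b)) ι' (ξ τ) =
          act (sw (cc a : RatFunc K) (cc b)) σ Q' - Q' := hQ
    let ι0 : AlgebraicClosure K →ₐ[K] AlgebraicClosure i.Lv := (ι'.restrictScalars K).comp e
    refine ⟨ι0, (trM a b (AlgebraicClosure i.Lv)).symm Q', fun σ τ0 hσ => ?_⟩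
    obtain ⟨τ, hτ⟩ := exists_compat (L := i.Lv) ι' σ
    have hc : ∀ z, τ (e z) = e (τ0 z) := by
      intro z
      apply RingHom.injective (ι' : Kb K →+* AlgebraicClosure i.Lv)
      exact (hτ (e z)).trans (hσ z).symm
    apply (trM a b (AlgebraicClosure i.Lv)).injective
    have h1 : trM a b (AlgebraicClosure i.Lv) (pm (sw a b) ι0 (ξ0 τ0)) =
        pm (sw (cc a : RatFunc K) (cc b)) ι' (ξ τ) := by
      rw [← hgen τ τ0 hc]
      change _ = pm _ ι' (trM a b (Kb K) (pm (sw a b) e (ξ0 τ0)))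
      rw [trM_pm ι' (ι'.restrictScalars K) (fun x => rfl), pm_pm]
    have h2 : trM a b (AlgebraicClosure i.Lv)
        (act (sw a b) σ ((trM a b (AlgebraicClosure i.Lv)).symm Q')) =
        act (sw (cc a : RatFunc K) (cc b)) σ Q' := by
      change trM a b (AlgebraicClosure i.Lv) (pm (sw a b)
        ((σ : AlgebraicClosure i.Lv →ₐ[i.Lv] AlgebraicClosure i.Lv).restrictScalars K)
          ((trM a b (AlgebraicClosure i.Lv)).symm Q')) =
        pm _ ((σ : AlgebraicClosure i.Lv →ₐ[i.Lv] AlgebraicClosure i.Lv).restrictScalars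
          (RatFunc K)) Q'
      rw [← trM_pm ((σ : AlgebraicClosure i.Lv →ₐ[i.Lv] AlgebraicClosure i.Lv).restrictScalars
          (RatFunc K)) _ (fun x => rfl), AddEquiv.apply_symm_apply]
    rw [h1, map_sub, h2, AddEquiv.apply_symm_apply]
    exact hQ' σ τ hτ
  obtain ⟨T0, hT0, hT⟩ := hsel n ξ0 hcoc hN0 hloc0
  refine ⟨px a b e T0, ?_, fun τ => ?_⟩
  · rw [← map_nsmul, hT0, map_zero]
  · obtain ⟨τ0, hτ0⟩ := exists_compat e τ
    have hc : ∀ z, τ (e z) = e (τ0 z) := fun z => (hτ0 z).symm
    rw [px_act e hc, ← hgen τ τ0 hc, ← map_nsmul, hT, map_sub]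

end

end Pool.Agent.R425.CC
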