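import Pool.Agent.R425.CC.Kum
import Pool.Agent.R425.CC.Desc

/-!
# Cocycles over the field of rational functions come from the constants, up to finite level
-/

set_option autoImplicit false
set_option linter.all false

open Polynomial IsDedekindDomain NumberField WeierstrassCurve

namespace Pool.Agent.R425.CC

open Pool.Agent.TH942 Pool.Agent.TH954 Pool.Agent.Y791.BS Pool.Agent.Y791.BF
  Pool.Agent.Y791.BC Pool.Agent.Y791.BC.Desc2T Pool.Agent.H918R3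
  Pool.Agent.H918R3.TB1 Pool.Agent.Y65.D2

open scoped Classical

section

variable {K : Type} [Field K] [CharZero K]

lemma hexK {M : Type} [Field M] [CharZero M] [IsAlgClosed M] {W : WeierstrassCurve M} {x y w : M}
    (hC : crv x y w = W) (hxy : x ≠ y) (hxw : x ≠ w) (hyw : y ≠ w) :
    ∃ Q : W.toAffine.Point, Q + Q ≠ 0 := by
  obtain ⟨T, hT⟩ := exT (two_ne_zero) hC hxy hxw hyw
  obtain ⟨Q, hQ⟩ := Leg.half_W (two_ne_zero : (2 : M) ≠ 0) hxy hxw hyw _ hC.symm T 0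
    (by
      obtain ⟨z, hz⟩ := IsAlgClosed.exists_pow_nat_eq (dlW x y w T * dlW x y w
        (0 : W.toAffine.Point)) two_pos
      exact ⟨z, by rw [← sq, hz]⟩) (by
      obtain ⟨z, hz⟩ := IsAlgClosed.exists_pow_nat_eq (dlW y x w T * dlW y x w
        (0 : W.toAffine.Point)) two_pos
      exact ⟨z, by rw [← sq, hz]⟩)
  refine ⟨Q, ?_⟩
  rw [add_zero] at hQ
  rw [← two_nsmul, ← hQ]
  exact hT

theorem transfer_step (hEmb : S_EmbFG) [CharZero (RatFunc K)]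
    {E0 : WeierstrassCurve (RatFunc K)} (e : AlgebraicClosure K →ₐ[K] Kb K)
    {z1 z2 z3 : AlgebraicClosure K}
    (h12 : z1 ≠ z2) (h13 : z1 ≠ z3) (h23 : z2 ≠ z3)
    (hC : ∀ (M : Type) [Field M] [Algebra (RatFunc K) M] (f : Kb K →ₐ[RatFunc K] M),
      crv (f (e z1)) (f (e z2)) (f (e z3)) = E0.baseChange M)
    {ζ : (Kb K ≃ₐ[RatFunc K] Kb K) → AlgPt E0 (RatFunc K)} (hζc : IsCocycle E0 ζ)
    (hζloc : ∀ i : PlF (RatFunc K), TrivialOver E0 ζ i.Lv)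
    {E : Lvl (RatFunc K)} (hE : Inv e z1 z2 z3 E)
    (hζ : ∀ σ : Kb K ≃ₐ[RatFunc K] Kb K, (∀ c, σ (E.κ c) = E.κ c) → ζ σ + ζ σ = 0) :
    ∃ E' : Lvl (RatFunc K), Inv e z1 z2 z3 E' ∧
      (∀ σ : Kb K ≃ₐ[RatFunc K] Kb K, (∀ c, σ (E'.κ c) = E'.κ c) → ∀ c, σ (E.κ c) = E.κ c) ∧
      ∀ σ : Kb K ≃ₐ[RatFunc K] Kb K, (∀ c, σ (E'.κ c) = E'.κ c) → ζ σ = 0 := by
  have hcM : CharZero (Kb K) :=
    charZero_of_injective_algebraMap (algebraMap (RatFunc K) (Kb K)).injective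
  obtain ⟨hS, hCc, ⟨θ1, hθ1⟩, ⟨θ2, hθ2⟩, ⟨θ3, hθ3⟩⟩ := hE
  have hinj : Function.Injective e := RingHom.injective (e : AlgebraicClosure K →+* Kb K)
  have g12 : e z1 ≠ e z2 := fun h => h12 (hinj h)
  have g13 : e z1 ≠ e z3 := fun h => h13 (hinj h)
  have g23 : e z2 ≠ e z3 := fun h => h23 (hinj h)
  have hCK : crv (e z1) (e z2) (e z3) = E0.baseChange (Kb K) := hC (Kb K) (AlgHom.id _ _)
  have hCK2 : crv (e z2) (e z1) (e z3) = E0.baseChange (Kb K) := (crv_swap _ _ _).trans hCK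
  have hex : ∃ Q : AlgPt E0 (RatFunc K), Q + Q ≠ 0 := hexK hCK g12 g13 g23
  have hfixz : ∀ σ ∈ (lvlField E).fixingSubgroup, σ (e z1) = e z1 ∧ σ (e z2) = e z2 ∧
      σ (e z3) = e z3 := by
    intro σ hσ
    have h := (mem_lvl E σ).1 hσ
    refine ⟨?_, ?_, ?_⟩
    · rw [← hθ1]; exact h _
    · rw [← hθ2]; exact h _
    · rw [← hθ3]; exact h _
  obtain ⟨s1, hs10, hs1⟩ := kummerT hCK g12 g13 g23 hex (lvlField E).fixingSubgroup hfixz hζc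
    (fun σ hσ => hζ σ ((mem_lvl E σ).1 hσ))
  obtain ⟨s2, hs20, hs2⟩ := kummerT hCK2 g12.symm g23 g13 hex (lvlField E).fixingSubgroup
    (fun σ hσ => ⟨(hfixz σ hσ).2.1, (hfixz σ hσ).1, (hfixz σ hσ).2.2⟩) hζc
    (fun σ hσ => hζ σ ((mem_lvl E σ).1 hσ))
  obtain ⟨d1, r1, e1⟩ := kummer_const hEmb (x1 := e z1) (x2 := e z2) (x3 := e z3) hC E hθ1 hθ2 hθ3
    g12 g13 g23 hζc hζloc hζ hs10 (fun σ hσ => hs1 σ ((mem_lvl E σ).2 hσ))
  obtain ⟨d2, r2, e2⟩ := kummer_const hEmb (x1 := e z2) (x2 := e z1) (x3 := e z3)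
    (fun M _ _ f => (crv_swap _ _ _).trans (hC M f)) E hθ2 hθ1 hθ3
    g12.symm g23 g13 hζc hζloc hζ hs20 (fun σ hσ => hs2 σ ((mem_lvl E σ).2 hσ))
  have hp1 : (X ^ 2 - C d1 : E.K[X]) ≠ 0 := X_pow_sub_C_ne_zero two_pos d1
  have hp2 : (X ^ 2 - C d2 : E.K[X]) ≠ 0 := X_pow_sub_C_ne_zero two_pos d2
  obtain ⟨E', j, hcst, hS', hsp, hc1, hc2, hfix⟩ := Level.ext (RatFunc K) E
    ((X ^ 2 - C d1) * (X ^ 2 - C d2)) (mul_ne_zero hp1 hp2)
  have hroot : ∀ d : E.K, (X ^ 2 - C d : E.K[X]) ∣ (X ^ 2 - C d1) * (X ^ 2 - C d2) →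
      ∃ δ : E'.K, δ ^ 2 = j d := by
    intro d hd
    have h1 : ((X ^ 2 - C d : E.K[X]).map j).Splits := by
      refine Splits.of_dvd hsp ?_ (Polynomial.map_dvd j hd)
      exact (Polynomial.map_ne_zero_iff j.injective).2 (mul_ne_zero hp1 hp2)
    have h2 : ((X ^ 2 - C d : E.K[X]).map j) = X ^ 2 - C (j d) := by
      rw [Polynomial.map_sub, Polynomial.map_pow, map_X, map_C]
    rw [h2] at h1
    obtain ⟨δ, hδ⟩ := Splits.exists_eval_eq_zero h1 (by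
      rw [degree_X_pow_sub_C two_pos]
      norm_num)
    refine ⟨δ, ?_⟩
    rw [eval_sub, eval_pow, eval_X, eval_C] at hδ
    exact sub_eq_zero.1 hδ
  obtain ⟨δ1, hδ1⟩ := hroot d1 (dvd_mul_right _ _)
  obtain ⟨δ2, hδ2⟩ := hroot d2 (dvd_mul_left _ _)
  have hcm : ∀ z : AlgebraicClosure K, (∃ θ, E.cst θ = e z) → ∃ θ, E'.cst θ = e z := by
    rintro z ⟨θ, hθ⟩
    exact ⟨j θ, by rw [hcst, hθ]⟩
  have hone : ∀ (s : Kb K) (d : E.K) (δ : E'.K) (r : RatFunc E.K) (x : Kb K), s ≠ 0 →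
      s ^ 2 = E.cst d * E.κ r ^ 2 → δ ^ 2 = j d →
      ∀ σ : Kb K ≃ₐ[RatFunc K] Kb K, (∀ c, σ (E'.κ c) = E'.κ c) →
      σ s = ((ww x (ζ σ) : ℤ) : Kb K) * s → ww x (ζ σ) = 1 := by
    intro s d δ r x hs0 hs hδ σ hσ hσs
    have h1 : s ^ 2 = (E'.cst δ * E.κ r) ^ 2 := by
      have hq : (E'.cst δ) ^ 2 = E.cst d := by rw [← map_pow, hδ, hcst]
      rw [hs, mul_pow, hq]
    have h2 : σ (E'.cst δ * E.κ r) = E'.cst δ * E.κ r := by
      rw [map_mul, hfix σ hσ]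
      congr 1
      exact hσ _
    have h3 : σ s = s := by
      rcases sq_eq_sq_iff_eq_or_eq_neg.1 h1 with h | h
      · rw [h, h2]
      · rw [h, map_neg, h2]
    rw [h3] at hσs
    rcases ww_or x (ζ σ) with h | h
    · exact h
    · exfalso
      rw [h] at hσs
      push_cast at hσs
      apply hs0
      have h4 : (2 : Kb K) * s = 0 := by linear_combination hσs
      exact (mul_eq_zero.1 h4).resolve_left two_ne_zero
  refine ⟨E', ⟨hS'.trans hS, fun w hw => hCc w (hc1 w hw), hcm _ ⟨θ1, hθ1⟩, hcm _ ⟨θ2, hθ2⟩,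
    hcm _ ⟨θ3, hθ3⟩⟩, hfix, fun σ hσ => ?_⟩
  have h1 := hone s1 d1 δ1 r1 (e z1) hs10 e1 hδ1 σ hσ (hs1 σ ((mem_lvl E σ).2 (hfix σ hσ)))
  have h2 := hone s2 d2 δ2 r2 (e z2) hs20 e2 hδ2 σ hσ (hs2 σ ((mem_lvl E σ).2 (hfix σ hσ)))
  exact ww_inj' two_ne_zero hCK g12 g13 g23 (hζ σ (hfix σ hσ)) (add_zero _) (h1.trans rfl)
    (h2.trans rfl)

theorem transfer_tower (hEmb : S_EmbFG) [CharZero (RatFunc K)]
    {E0 : WeierstrassCurve (RatFunc K)} (e : AlgebraicClosure K →ₐ[K] Kb K)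
    {z1 z2 z3 : AlgebraicClosure K}
    (h12 : z1 ≠ z2) (h13 : z1 ≠ z3) (h23 : z2 ≠ z3)
    (hC : ∀ (M : Type) [Field M] [Algebra (RatFunc K) M] (f : Kb K →ₐ[RatFunc K] M),
      crv (f (e z1)) (f (e z2)) (f (e z3)) = E0.baseChange M)
    {ξ : (Kb K ≃ₐ[RatFunc K] Kb K) → AlgPt E0 (RatFunc K)} (hξc : IsCocycle E0 ξ)
    (hξloc : ∀ i : PlF (RatFunc K), TrivialOver E0 ξ i.Lv) (n : ℕ) :
    ∀ {E : Lvl (RatFunc K)}, Inv e z1 z2 z3 E →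
    (∀ σ : Kb K ≃ₐ[RatFunc K] Kb K, (∀ c, σ (E.κ c) = E.κ c) → (2 ^ n) • ξ σ = 0) →
    ∃ E' : Lvl (RatFunc K), Inv e z1 z2 z3 E' ∧
      ∀ σ : Kb K ≃ₐ[RatFunc K] Kb K, (∀ c, σ (E'.κ c) = E'.κ c) → ξ σ = 0 := by
  induction n with
  | zero =>
    intro E hE h
    exact ⟨E, hE, fun σ hσ => by
      have := h σ hσ
      rwa [pow_zero, one_nsmul] at this⟩
  | succ n ih =>
    intro E hE h
    obtain ⟨E1, hE1, -, h1⟩ := transfer_step hEmb e h12 h13 h23 hC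
      (ζ := fun σ => (2 ^ n) • ξ σ) (cocycle_nsmul hξc _) (fun i => triv_nsmul (hξloc i) _) hE
      (fun σ hσ => by
        have h2 := h σ hσ
        change (2 ^ n) • ξ σ + (2 ^ n) • ξ σ = 0
        rw [← add_nsmul, ← two_mul, ← pow_succ']
        exact h2)
    exact ih hE1 h1

end

end Pool.Agent.R425.CC
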