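import Pool.Agent.R425.CC.Desc
import Pool.Agent.Y791.BC.SelG

/-!
# Values of points of constant curves above two
-/

set_option autoImplicit false
set_option linter.all false

open Polynomial IsDedekindDomain NumberField WeierstrassCurve

namespace Pool.Agent.R425.CC

open Pool.Agent.TH942 Pool.Agent.TH954 Pool.Agent.Y791.BS Pool.Agent.Y791.BF
  Pool.Agent.Y791.BC Pool.Agent.Y791.BC.Desc2T Pool.Agent.H918R3
  Pool.Agent.H918R3.TB1 Pool.Agent.Y65.D2

open scoped Classical

section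

variable {K : Type} [Field K] [CharZero K] {M : Type} [Field M] [CharZero M] [IsAlgClosed M]
  [Algebra (RatFunc K) M] [Algebra K M] [IsScalarTower K (RatFunc K) M]

lemma crv_roots {a b : K} {z1 z2 z3 : AlgebraicClosure K} (hs : z1 + z2 + z3 = 0)
    (ha : algebraMap K (AlgebraicClosure K) a = z1 * z2 + z1 * z3 + z2 * z3)
    (hb : algebraMap K (AlgebraicClosure K) b = -(z1 * z2 * z3)) (f : AlgebraicClosure K →ₐ[K] M) :
    crv (f z1) (f z2) (f z3) = (sw a b).baseChange M := by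
  have h1 : ((sw a b).baseChange M).a₁ = 0 := map_zero _
  have h2 : ((sw a b).baseChange M).a₂ = 0 := map_zero _
  have h3 : ((sw a b).baseChange M).a₃ = 0 := map_zero _
  have h4 : ((sw a b).baseChange M).a₄ = algebraMap K M a := rfl
  have h6 : ((sw a b).baseChange M).a₆ = algebraMap K M b := rfl
  ext
  · rw [h1]; rfl
  · rw [h2]
    change -(f z1 + f z2 + f z3) = 0
    rw [← map_add, ← map_add, hs, map_zero, neg_zero]
  · rw [h3]; rfl
  · rw [h4, ← f.commutes, ha]
    simp only [crv, map_add, map_mul]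
  · rw [h6, ← f.commutes, hb]
    simp only [crv, map_neg, map_mul]

/-- points which are divisible by all powers of two -/
theorem all_div (hT : S_TypesL) (hess : Algebra.EssFiniteType ℚ K) {a b : K}
    (hD : 4 * a ^ 3 + 27 * b ^ 2 ≠ 0) {m : ℕ} (hsel : SelKilledL K 2 a b m)
    (A : SAct (RatFunc K) M)
    (pl : ∀ i : PlF (RatFunc K), Plc (RatFunc K) M (AlgebraicClosure i.Lv))
    (hpl : ∀ i, GeoPlc A (pl i)) {P : ((sw a b).baseChange M).toAffine.Point}
    (hP : ∀ τ, ap A (sw a b) τ P = P) (hP0 : ∀ N : ℕ, 1 ≤ N → N • P ≠ 0) (n : ℕ) :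
    ∃ Q', (∀ τ, ap A (sw a b) τ Q' = Q') ∧ (2 ^ n) • Q' = m • P := by
  have hch : CharZero (RatFunc K) :=
    charZero_of_injective_algebraMap (algebraMap K (RatFunc K)).injective
  let e : AlgebraicClosure K →ₐ[K] Kb K := IsAlgClosed.lift
  obtain ⟨z1, z2, z3, hs, ha, hb, h12, h13, h23⟩ := exists_roots hD
  obtain ⟨E, hE⟩ := exists_first hess e hs ha hb
  have hW := crv_roots hs ha hb (j0 A e)
  obtain ⟨E', Q, hE', hQ, hQP⟩ := tower hT A pl hpl e h12 h13 h23 hW hE (fun τ _ => hP τ) hP0 n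
  exact div_fixed hD hess hsel A pl hpl e hE' hQ hP hQP

theorem alg_valsC (hT : S_TypesL) (hess : Algebra.EssFiniteType ℚ K) {a b : K}
    (hD : 4 * a ^ 3 + 27 * b ^ 2 ≠ 0) {m : ℕ} (hm : 1 ≤ m) (hsel : SelKilledL K 2 a b m)
    (A : SAct (RatFunc K) M)
    (pl : ∀ i : PlF (RatFunc K), Plc (RatFunc K) M (AlgebraicClosure i.Lv))
    (hpl : ∀ i, GeoPlc A (pl i)) {x y : M} (hx : x ∈ A.fix) (hy : y ∈ A.fix)
    (hxt : Transcendental (RatFunc K) x)
    (hxy : y ^ 2 = x ^ 3 + algebraMap K M a * x + algebraMap K M b) (i : PlF (RatFunc K))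
    (hi : ‖((2 : ℕ) : i.Lv)‖ < 1) (c : AlgebraicClosure i.Lv) (hc : (pl i).val x c) :
    IsAlgebraic (RatFunc K) c := by
  have hch : CharZero (RatFunc K) :=
    charZero_of_injective_algebraMap (algebraMap K (RatFunc K)).injective
  have hchi : CharZero i.Lv := charZero_compl i.v
  have hchC : CharZero (AlgebraicClosure i.Lv) :=
    charZero_of_injective_algebraMap (algebraMap i.Lv _).injective
  have hns : ((sw a b).baseChange M).toAffine.Nonsingular x y := Leg.nonsing_sw hD hxy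
  set P : ((sw a b).baseChange M).toAffine.Point := .some x y hns with hPd
  have hP : ∀ τ, ap A (sw a b) τ P = P := by
    intro τ
    obtain ⟨h', e'⟩ := pm_some (E := sw a b)
      ((((A.s τ : M ≃ₐ[RatFunc K] M) : M →ₐ[RatFunc K] M)).restrictScalars K) hns
    unfold ap
    rw [hPd, e', Affine.Point.some.injEq]
    exact ⟨hx τ, hy τ⟩
  have hP0 : ∀ N : ℕ, 1 ≤ N → N • P ≠ 0 := by
    intro N hN h0
    exact hxt ((Leg.alg_of_tors2 hD hns hN h0).tower_top (RatFunc K))
  have hdiv := all_div hT hess hD hsel A pl hpl hP hP0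
  let iK : PlF K := ⟨i.L, i.v, i.φ.comp (algebraMap K (RatFunc K))⟩
  let inst1 : Algebra (RatFunc K) iK.Lv := i.φ.toAlgebra
  have inst2 : IsScalarTower K (RatFunc K) iK.Lv := IsScalarTower.of_algebraMap_eq (fun c => rfl)
  let p : Plc (RatFunc K) M (AlgebraicClosure iK.Lv) := pl i
  have hp : GeoPlc A p := hpl i
  have hchi' : CharZero iK.Lv := hchi
  have hchC' : CharZero (AlgebraicClosure iK.Lv) := hchC
  obtain ⟨red, h1, h2⟩ := exists_redM (pK (K := K) p) hD
  have hdesc : ∀ T, (∀ τ, ap A (sw a b) τ T = T) → ∃ z, incl (sw a b) iK.Lv z = red T := by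
    intro T hT
    refine exists_of_fixed _ (fun σ => ?_)
    obtain ⟨τ, hτ⟩ := exists_compat (p.iot A.j) σ
    have h3 := red_ap A hp h1 h2 hτ T
    rw [hT τ] at h3
    exact h3.symm
  obtain ⟨D, hDm⟩ := hdesc (m • P) (fun τ => by rw [map_nsmul, hP])
  have hinj : Function.Injective (incl (sw a b) iK.Lv) := pm_injective (E := sw a b) _
  have hDd : ∀ n : ℕ, ∃ T, (2 ^ n) • T = D := by
    intro n
    obtain ⟨Q', hQ', hQn⟩ := hdiv n
    obtain ⟨z, hz⟩ := hdesc Q' hQ'
    refine ⟨z, hinj ?_⟩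
    have h3 : incl (sw a b) iK.Lv ((2 ^ n) • z) = (2 ^ n) • incl (sw a b) iK.Lv z :=
      map_nsmul (pm (sw a b) _) _ _
    rw [h3, hz, hDm, ← map_nsmul, hQn]
  obtain ⟨N, hN, hND⟩ := Leg.tors_i iK two_ne_zero hi hD D hDd
  obtain ⟨hy', h', e'⟩ := h2 x y hns hc.mem
  have e2 : (N * m) • (Affine.Point.some _ _ h' :
      ((sw a b).baseChange (AlgebraicClosure iK.Lv)).toAffine.Point) = 0 := by
    have h4 : incl (sw a b) iK.Lv (N • D) = N • incl (sw a b) iK.Lv D :=
      map_nsmul (pm (sw a b) _) _ _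
    have h5 : incl (sw a b) iK.Lv (N • D) = 0 := by
      rw [hND]
      exact map_zero (pm (sw a b) _)
    rw [← e', mul_smul, ← map_nsmul red m, ← hDm, ← h4, h5]
  have h6 := Leg.alg_of_tors2 hD h' (Nat.mul_pos hN hm) e2
  have h7 : (pK (K := K) p).ρ ⟨x, hc.mem⟩ = c := hc.choose_spec
  rw [h7] at h6
  exact h6.tower_top (RatFunc K)

end

end Pool.Agent.R425.CC
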